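import Pool.Agent.H460.EX.QC

/-! Discriminants divisible by the square of a prime of medium size. -/

set_option autoImplicit false

namespace Pool.Agent.H460.EC

open Filter Topology
open Pool.Agent.H828_AC (D Reg reg_finite reg_iff uv_bounds cnt_a0 cnt_T cnt_U b_iff)

/-- pairs in the box with `p² ∣ D` for a prime `Y < p ≤ L` -/
def Med (X : ℝ) (Y : ℕ) (L : ℝ) : Set (ℤ × ℤ) :=
  {z | z ∈ Reg X ∧ ∃ p : ℕ, p.Prime ∧ Y < p ∧ (p : ℝ) ≤ L ∧ (p : ℤ) ^ 2 ∣ D z.1 z.2}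

theorem med_bound {X : ℝ} (hX : 1 ≤ X) {Y : ℕ} (hY : 4 ≤ Y) {L : ℝ} (hL : 0 ≤ L) :
    ((Med X Y L).ncard : ℝ) ≤ 3 * X ^ (1 / 2 : ℝ) +
      (12 * X ^ (5 / 6 : ℝ) / Y + 6 * X ^ (1 / 3 : ℝ) * L) + 9 * X ^ (5 / 6 : ℝ) / Y := by
  classical
  have hX0 : 0 < X := by linarith
  obtain ⟨hu0, hu2, hv0, hv2', hu1, hv1⟩ := uv_bounds hX
  set u := X ^ (1 / 3 : ℝ) with hu
  set v := X ^ (1 / 2 : ℝ) with hv
  have huv : u * v = X ^ (5 / 6 : ℝ) := by
    rw [hu, hv, ← Real.rpow_add hX0]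
    norm_num
  have hYr : (4 : ℝ) ≤ Y := by exact_mod_cast hY
  let P1 := (Finset.Ioc Y ⌊L⌋₊).filter Nat.Prime
  let P2 := (Finset.Ioc Y ⌊u⌋₊).filter Nat.Prime
  let R := (reg_finite X).toFinset
  have hmR : ∀ z, z ∈ R ↔ z ∈ Reg X := fun z => by simp [R]
  let A1 := R.filter fun z => z.1 = 0
  let T := fun p : ℕ => R.filter fun z => ¬ (p : ℤ) ∣ z.1 ∧ (p : ℤ) ^ 2 ∣ D z.1 z.2
  let U := fun p : ℕ => R.filter fun z => (p : ℤ) ∣ z.1 ∧ (p : ℤ) ∣ z.2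
  have hcov : Med X Y L ⊆
      (((A1 ∪ P1.biUnion T) ∪ P2.biUnion U : Finset (ℤ × ℤ)) : Set (ℤ × ℤ)) := by
    rintro z ⟨hz, p, hp, hYp, hpL, hpd⟩
    simp only [Finset.coe_union, Set.mem_union, Finset.mem_coe, Finset.mem_biUnion, A1, T, U,
      Finset.mem_filter, hmR]
    by_cases h4 : z.1 = 0
    · exact Or.inl (Or.inl ⟨hz, h4⟩)
    by_cases h5 : (p : ℤ) ∣ z.1
    · right
      refine ⟨p, ?_, hz, h5, (b_iff hp (by omega) h5).1 ((dvd_pow_self _ (by norm_num)).trans hpd)⟩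
      simp only [P2, Finset.mem_filter, Finset.mem_Ioc]
      refine ⟨⟨hYp, Nat.le_floor ?_⟩, hp⟩
      have h6 : (p : ℤ) ≤ |z.1| := Int.le_of_dvd (abs_pos.2 h4) ((dvd_abs _ _).2 h5)
      have h7 : (p : ℝ) ≤ |(z.1 : ℝ)| := by exact_mod_cast h6
      have h8 := ((reg_iff hX0.le z).1 hz).1
      rw [zero_sub, abs_neg, one_mul] at h8
      linarith
    · left
      right
      refine ⟨p, ?_, hz, h5, hpd⟩
      simp only [P1, Finset.mem_filter, Finset.mem_Ioc]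
      exact ⟨⟨hYp, Nat.le_floor hpL⟩, hp⟩
  have hcard : ∀ (Q : ℤ × ℤ → Prop) [DecidablePred Q], ((R.filter Q).card : ℝ) =
      (({z | z ∈ Reg X ∧ Q z} : Set (ℤ × ℤ)).ncard : ℝ) := by
    intro Q _
    rw [← Set.ncard_coe_finset]
    congr 2
    ext z
    simp [R]
  have h2 : (A1.card : ℝ) ≤ 3 * v := by
    have := cnt_a0 hX
    rw [hcard]
    linarith
  have h3 : ∀ p ∈ P1, ((T p).card : ℝ) ≤ 3 * u * (4 * v * ((p : ℝ) ^ 2)⁻¹ + 2) := by
    intro p hp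
    simp only [P1, Finset.mem_filter, Finset.mem_Ioc] at hp
    have := cnt_T hX hp.2 (by omega)
    rw [hcard]
    exact this
  have h4 : ∀ p ∈ P2, ((U p).card : ℝ) ≤ 9 * (u * v) * ((p : ℝ) ^ 2)⁻¹ := by
    intro p hp
    simp only [P2, Finset.mem_filter, Finset.mem_Ioc] at hp
    have h5 : (p : ℝ) ≤ u := (Nat.cast_le.2 hp.1.2).trans (Nat.floor_le (by linarith))
    have := cnt_U hX hp.2 h5
    rw [hcard]
    refine this.trans (le_of_eq ?_)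
    have hp0 : (p : ℝ) ≠ 0 := by exact_mod_cast hp.2.ne_zero
    field_simp
    ring
  have h5 : (P1.card : ℝ) ≤ L := by
    have h51 : P1.card ≤ ⌊L⌋₊ := by
      refine (Finset.card_filter_le _ _).trans ?_
      rw [Nat.card_Ioc]
      omega
    exact (Nat.cast_le.2 h51).trans (Nat.floor_le hL)
  have h6 : ∀ N : ℕ, ∑ p ∈ (Finset.Ioc Y N).filter Nat.Prime, ((p : ℝ) ^ 2)⁻¹ ≤ 1 / Y := by
    intro N
    refine le_trans (Finset.sum_le_sum_of_subset_of_nonneg (Finset.filter_subset _ _) ?_)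
      (Pool.Agent.H828_SQ.inv_sq_sum (by omega))
    intro p _ _
    positivity
  have h7 : (Med X Y L).ncard ≤ ((A1 ∪ P1.biUnion T) ∪ P2.biUnion U).card := by
    rw [← Set.ncard_coe_finset]
    exact Set.ncard_le_ncard hcov (Finset.finite_toSet _)
  have h8 : ((A1 ∪ P1.biUnion T) ∪ P2.biUnion U).card ≤
      A1.card + ∑ p ∈ P1, (T p).card + ∑ p ∈ P2, (U p).card := by
    refine (Finset.card_union_le _ _).trans (Nat.add_le_add ?_ Finset.card_biUnion_le)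
    exact (Finset.card_union_le _ _).trans (Nat.add_le_add le_rfl Finset.card_biUnion_le)
  have h9 : ((Med X Y L).ncard : ℝ) ≤
      A1.card + ∑ p ∈ P1, ((T p).card : ℝ) + ∑ p ∈ P2, ((U p).card : ℝ) := by
    exact_mod_cast h7.trans h8
  have h10 : ∑ p ∈ P1, ((T p).card : ℝ) ≤ 12 * (u * v) / Y + 6 * u * L := by
    calc ∑ p ∈ P1, ((T p).card : ℝ) ≤ ∑ p ∈ P1, 3 * u * (4 * v * ((p : ℝ) ^ 2)⁻¹ + 2) :=
          Finset.sum_le_sum h3
      _ = 12 * (u * v) * ∑ p ∈ P1, ((p : ℝ) ^ 2)⁻¹ + 6 * u * P1.card := by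
          rw [Finset.mul_sum, mul_comm (6 * u), ← nsmul_eq_mul, ← Finset.sum_const,
            ← Finset.sum_add_distrib]
          exact Finset.sum_congr rfl fun p _ => by ring
      _ ≤ 12 * (u * v) * (1 / Y) + 6 * u * L :=
          add_le_add (mul_le_mul_of_nonneg_left (h6 _) (by positivity))
            (mul_le_mul_of_nonneg_left h5 (by positivity))
      _ = _ := by ring
  have h11 : ∑ p ∈ P2, ((U p).card : ℝ) ≤ 9 * (u * v) / Y := by
    calc ∑ p ∈ P2, ((U p).card : ℝ) ≤ ∑ p ∈ P2, 9 * (u * v) * ((p : ℝ) ^ 2)⁻¹ :=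
          Finset.sum_le_sum h4
      _ = 9 * (u * v) * ∑ p ∈ P2, ((p : ℝ) ^ 2)⁻¹ := by rw [Finset.mul_sum]
      _ ≤ 9 * (u * v) * (1 / Y) := mul_le_mul_of_nonneg_left (h6 _) (by positivity)
      _ = _ := by ring
  rw [← huv]
  linarith

end Pool.Agent.H460.EC
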