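import Pool.Agent.H460.EX.Conic
import Pool.Agent.H460.EX.Bad
import Pool.Graph.R_seed8.H510R2.Div

/-! Discriminants divisible by the square of a prime larger than `Y ^ (1/2 - λ)`. -/

set_option autoImplicit false

namespace Pool.Agent.H460.EC

open Filter Topology
open Pool.Agent.H828_AC (D)

/-- pairs with `|a| ≤ A`, `|D| ≤ Y` and `p² ∣ D` for a prime `p > L` -/
def Big (Y A L : ℝ) : Set (ℤ × ℤ) :=
  {z | z ∈ Fam (fun _ _ => True) Y A ∧ ∃ p : ℕ, p.Prime ∧ L < p ∧ (p : ℤ) ^ 2 ∣ D z.1 z.2}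

theorem abs_b {Y A : ℝ} (hA : 0 ≤ A) (hYA : Y ≤ A ^ 3) {z : ℤ × ℤ} (h1 : |(z.1 : ℝ)| ≤ A)
    (h2 : |(D z.1 z.2 : ℝ)| ≤ Y) : (z.2 : ℝ) ^ 2 ≤ A ^ 3 := by
  have h6 : ((D z.1 z.2 : ℤ) : ℝ) = 4 * (z.1 : ℝ) ^ 3 - 27 * (z.2 : ℝ) ^ 2 := by
    unfold D
    push_cast
    ring
  have h7 := (abs_le.1 h2).1
  rw [h6] at h7
  have h8 : (z.1 : ℝ) ^ 3 ≤ |(z.1 : ℝ)| ^ 3 := by
    rw [← abs_pow]
    exact le_abs_self _
  have h9 := pow_le_pow_left₀ (abs_nonneg _) h1 3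
  have h10 : 0 ≤ A ^ 3 := by positivity
  nlinarith

/-- few pairs with small `a` -/
theorem small_a {Y a₀ : ℝ} (hY : 1 ≤ Y) (ha : 1 ≤ a₀) (haY : a₀ ^ 3 ≤ Y) :
    ((Fam (fun _ _ => True) Y a₀).ncard : ℝ) ≤ 9 * (a₀ * √Y) := by
  have hY0 : 0 < Y := by linarith
  have hsY : 1 ≤ √Y := Real.one_le_sqrt.2 hY
  have hsub : Fam (fun _ _ => True) Y a₀ ⊆
      ((Finset.Icc (-(⌊a₀⌋₊ : ℤ)) ⌊a₀⌋₊ ×ˢ Finset.Icc (-(⌊√Y⌋₊ : ℤ)) ⌊√Y⌋₊ :
        Finset (ℤ × ℤ)) : Set (ℤ × ℤ)) := by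
    rintro z ⟨h1, h2, h3, _⟩
    have h6 : ((D z.1 z.2 : ℤ) : ℝ) = 4 * (z.1 : ℝ) ^ 3 - 27 * (z.2 : ℝ) ^ 2 := by
      unfold D
      push_cast
      ring
    have h7 := (abs_le.1 h3).1
    rw [h6] at h7
    have h8 : (z.1 : ℝ) ^ 3 ≤ |(z.1 : ℝ)| ^ 3 := by
      rw [← abs_pow]
      exact le_abs_self _
    have h9 := pow_le_pow_left₀ (abs_nonneg _) h1 3
    have h10 : |(z.2 : ℝ)| ≤ √Y := by
      refine Real.le_sqrt_of_sq_le ?_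
      rw [sq_abs]
      nlinarith
    rw [Finset.mem_coe, Finset.mem_product, Finset.mem_Icc, Finset.mem_Icc]
    have e1 : ∀ (x : ℤ) (r : ℝ), |(x : ℝ)| ≤ r → -(⌊r⌋₊ : ℤ) ≤ x ∧ x ≤ ⌊r⌋₊ := by
      intro x r hx
      have h11 : (x.natAbs : ℝ) ≤ r := by
        rw [Nat.cast_natAbs, Int.cast_abs]
        exact hx
      have h12 := Nat.le_floor h11
      omega
    exact ⟨e1 _ _ h1, e1 _ _ h10⟩
  have h1 := Set.ncard_le_ncard hsub (Finset.finite_toSet _)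
  rw [Set.ncard_coe_finset, Finset.card_product, Int.card_Icc, Int.card_Icc] at h1
  have h2 : ((Fam (fun _ _ => True) Y a₀).ncard : ℝ) ≤
      (2 * (⌊a₀⌋₊ : ℝ) + 1) * (2 * (⌊√Y⌋₊ : ℝ) + 1) := by
    have e1 : ∀ n : ℕ, ((n : ℤ) + 1 - -(n : ℤ)).toNat = 2 * n + 1 := fun n => by omega
    rw [e1, e1] at h1
    exact_mod_cast h1
  have h3 := Nat.floor_le (show 0 ≤ a₀ by linarith)
  have h4 := Nat.floor_le (show 0 ≤ √Y by linarith)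
  refine h2.trans ?_
  have h5 : 2 * (⌊a₀⌋₊ : ℝ) + 1 ≤ 3 * a₀ := by linarith
  have h6 : 2 * (⌊√Y⌋₊ : ℝ) + 1 ≤ 3 * √Y := by linarith
  calc (2 * (⌊a₀⌋₊ : ℝ) + 1) * (2 * (⌊√Y⌋₊ : ℝ) + 1) ≤ (3 * a₀) * (3 * √Y) :=
        mul_le_mul h5 h6 (by positivity) (by positivity)
    _ = _ := by ring

/-- the main part -/
theorem big_main {ε C : ℝ} (hε : 0 < ε) (hC : 0 < C)
    (hdiv : ∀ n : ℕ, 1 ≤ n → (n.divisors.card : ℝ) ≤ C * (n : ℝ) ^ ε)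
    {Y A L a₀ : ℝ} (hY : 1 ≤ Y) (hA : 1 ≤ A) (hYA : Y ≤ A ^ 3) (hL : 2 ≤ L) (hAL : A ≤ L)
    (ha : 0 < a₀) (hM : 1 ≤ Y / L ^ 2) :
    (({z | z ∈ Big Y A L ∧ a₀ ≤ |(z.1 : ℝ)|} : Set (ℤ × ℤ)).ncard : ℝ) ≤
      (3 * A) * (3 * (Y / L ^ 2)) *
        (2 * (2 * (39366 * (√(A ^ 3) * √Y) * (Y / L ^ 2) / a₀ ^ 3 + 1) + 1) *
          (C * (4 * A ^ 3) ^ ε)) := by
  classical
  have hY0 : 0 < Y := by linarith
  have hA0 : 0 < A := by linarith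
  have hL0 : 0 < L := by linarith
  set Q : ℝ := Y / L ^ 2 with hQ
  have hQ0 : 0 < Q := by linarith
  set B : ℕ := ⌊√(A ^ 3)⌋₊ with hB
  set B' : ℕ := ⌊√Y⌋₊ with hB'
  set K : ℕ := ⌈39366 * (√(A ^ 3) * √Y) * Q / a₀ ^ 3⌉₊ with hK
  let S : ℤ → ℤ → Finset (ℤ × ℕ) := fun a m =>
    (Finset.Icc (-(B : ℤ)) B ×ˢ Finset.range (B' + 1)).filter (OnC (4 * a ^ 3) m B B')
  let I : Finset (ℤ × ℤ) := ((Finset.Icc (-(⌊A⌋₊ : ℤ)) ⌊A⌋₊ ×ˢ
    Finset.Icc (-(⌊Q⌋₊ : ℤ)) ⌊Q⌋₊).filter fun x => x.2 ≠ 0 ∧ a₀ ≤ |(x.1 : ℝ)|)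
  have hfl : ∀ (x : ℤ) (r : ℝ), |(x : ℝ)| ≤ r → -(⌊r⌋₊ : ℤ) ≤ x ∧ x ≤ ⌊r⌋₊ := by
    intro x r hx
    have h11 : (x.natAbs : ℝ) ≤ r := by
      rw [Nat.cast_natAbs, Int.cast_abs]
      exact hx
    have h12 := Nat.le_floor h11
    omega
  have hsub : ({z | z ∈ Big Y A L ∧ a₀ ≤ |(z.1 : ℝ)|} : Set (ℤ × ℤ)) ⊆
      ((I.biUnion fun x => (S x.1 x.2).image fun s => (x.1, s.1) : Finset (ℤ × ℤ)) :
        Set (ℤ × ℤ)) := by
    rintro z ⟨⟨⟨h1, h2, h3, _⟩, p, hp, hpL, m, hm⟩, h4⟩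
    have hpr : (0 : ℝ) < p := by linarith
    have hm0 : m ≠ 0 := by
      rintro rfl
      rw [mul_zero] at hm
      exact h2 hm
    have hm1 : (1 : ℝ) ≤ |(m : ℝ)| := by exact_mod_cast Int.one_le_abs hm0
    have hmR : |(D z.1 z.2 : ℝ)| = (p : ℝ) ^ 2 * |(m : ℝ)| := by
      rw [hm]
      push_cast
      rw [abs_mul, abs_of_nonneg (by positivity)]
    have hmQ : |(m : ℝ)| ≤ Q := by
      rw [hQ, le_div_iff₀ (by positivity)]
      have : L ^ 2 ≤ (p : ℝ) ^ 2 := pow_le_pow_left₀ hL0.le hpL.le 2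
      nlinarith
    have hpY : (p : ℝ) ≤ √Y := by
      refine Real.le_sqrt_of_sq_le ?_
      nlinarith [sq_nonneg (p : ℝ)]
    have hb : |(z.2 : ℝ)| ≤ √(A ^ 3) := by
      refine Real.le_sqrt_of_sq_le ?_
      rw [sq_abs]
      exact abs_b hA0.le hYA h1 h3
    have hbB : z.2.natAbs ≤ B := by
      refine Nat.le_floor ?_
      rw [Nat.cast_natAbs, Int.cast_abs]
      exact hb
    have hpB : p ≤ B' := Nat.le_floor hpY
    have ha0 : z.1 ≠ 0 := by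
      intro h
      rw [h] at h4
      norm_num at h4
      linarith
    have hpn : ¬ ((p : ℤ) ∣ 4 * z.1 ^ 3) := by
      intro h
      have hp' : Prime (p : ℤ) := Nat.prime_iff_prime_int.1 hp
      rcases hp'.dvd_or_dvd h with h5 | h5
      · have h6 : (p : ℤ) ∣ 2 := by
          have : (4 : ℤ) = 2 ^ 2 := by norm_num
          rw [this] at h5
          exact hp'.dvd_of_dvd_pow h5
        have h7 : p ≤ 2 := Nat.le_of_dvd (by norm_num) (by exact_mod_cast h6)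
        have h8 : (p : ℝ) ≤ 2 := by exact_mod_cast h7
        linarith
      · have h6 := hp'.dvd_of_dvd_pow h5
        have h7 : (p : ℤ) ≤ |z.1| := Int.le_of_dvd (abs_pos.2 ha0) ((dvd_abs _ _).2 h6)
        have h8 : (p : ℝ) ≤ |(z.1 : ℝ)| := by exact_mod_cast h7
        linarith
    rw [Finset.mem_coe, Finset.mem_biUnion]
    refine ⟨(z.1, m), ?_, ?_⟩
    · simp only [I, Finset.mem_filter, Finset.mem_product, Finset.mem_Icc]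
      exact ⟨⟨hfl _ _ h1, hfl _ _ hmQ⟩, hm0, h4⟩
    · rw [Finset.mem_image]
      refine ⟨(z.2, p), ?_, rfl⟩
      simp only [S, Finset.mem_filter, Finset.mem_product, Finset.mem_Icc, Finset.mem_range]
      refine ⟨⟨by omega, by omega⟩, ?_, hp, hpn, hbB, hpB⟩
      simp only
      unfold D at hm
      linear_combination -hm
  have h1 := Set.ncard_le_ncard hsub (Finset.finite_toSet _)
  rw [Set.ncard_coe_finset] at h1
  have h2 := h1.trans Finset.card_biUnion_le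
  set N : ℝ := 2 * (2 * (39366 * (√(A ^ 3) * √Y) * Q / a₀ ^ 3 + 1) + 1) *
    (C * (4 * A ^ 3) ^ ε) with hN
  have h3 : ∀ x ∈ I, (((S x.1 x.2).image fun s : ℤ × ℕ => (x.1, s.1)).card : ℝ) ≤ N := by
    intro x hx
    simp only [I, Finset.mem_filter, Finset.mem_product, Finset.mem_Icc] at hx
    obtain ⟨⟨hx1, hx2⟩, hx3, hx4⟩ := hx
    have ha0 : x.1 ≠ 0 := by
      intro h
      rw [h] at hx4
      norm_num at hx4
      linarith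
    have hn0 : (4 * x.1 ^ 3 : ℤ) ≠ 0 := mul_ne_zero (by norm_num) (pow_ne_zero _ ha0)
    have hxA : |(x.1 : ℝ)| ≤ A := by
      have h4 : x.1.natAbs ≤ ⌊A⌋₊ := by omega
      have h5 : (x.1.natAbs : ℝ) ≤ A := (Nat.cast_le.2 h4).trans (Nat.floor_le hA0.le)
      rwa [Nat.cast_natAbs, Int.cast_abs] at h5
    have hxQ : (x.2.natAbs : ℝ) ≤ Q := by
      have h4 : x.2.natAbs ≤ ⌊Q⌋₊ := by omega
      exact (Nat.cast_le.2 h4).trans (Nat.floor_le hQ0.le)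
    have hnA : ((4 * x.1 ^ 3).natAbs : ℝ) = 4 * |(x.1 : ℝ)| ^ 3 := by
      rw [Nat.cast_natAbs, Int.cast_abs]
      push_cast
      rw [abs_mul, abs_pow]
      norm_num
    have hBr : (B : ℝ) ≤ √(A ^ 3) := Nat.floor_le (Real.sqrt_nonneg _)
    have hBr' : (B' : ℝ) ≤ √Y := Nat.floor_le (Real.sqrt_nonneg _)
    have hK2 : 54 * (B * B') * (2916 * x.2.natAbs) ≤ K * (4 * x.1 ^ 3).natAbs := by
      have h4 : 39366 * (√(A ^ 3) * √Y) * Q / a₀ ^ 3 ≤ K := Nat.le_ceil _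
      rw [div_le_iff₀ (by positivity)] at h4
      have h5 : a₀ ^ 3 ≤ |(x.1 : ℝ)| ^ 3 := pow_le_pow_left₀ ha.le hx4 3
      have h6 : (B : ℝ) * B' ≤ √(A ^ 3) * √Y := mul_le_mul hBr hBr' (by positivity) (by positivity)
      have h7 : ((54 * (B * B') * (2916 * x.2.natAbs) : ℕ) : ℝ) ≤
          ((K * (4 * x.1 ^ 3).natAbs : ℕ) : ℝ) := by
        push_cast
        rw [hnA]
        calc 54 * ((B : ℝ) * B') * (2916 * (x.2.natAbs : ℝ))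
            ≤ 54 * (√(A ^ 3) * √Y) * (2916 * Q) := by gcongr
          _ = 4 * (39366 * (√(A ^ 3) * √Y) * Q) := by ring
          _ ≤ 4 * (K * a₀ ^ 3) := by linarith
          _ ≤ 4 * (K * |(x.1 : ℝ)| ^ 3) := by gcongr
          _ = K * (4 * |(x.1 : ℝ)| ^ 3) := by ring
      exact_mod_cast h7
    have h4 := conic hn0 hx3 (S x.1 x.2) (fun s hs => (Finset.mem_filter.1 hs).2) hK2
    have h5 : (((S x.1 x.2).image fun s : ℤ × ℕ => (x.1, s.1)).card : ℝ) ≤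
        2 * (2 * (K : ℝ) + 1) * ((4 * x.1 ^ 3).natAbs.divisors.card : ℝ) := by
      exact_mod_cast Finset.card_image_le.trans h4
    refine h5.trans ?_
    have h6 := hdiv (4 * x.1 ^ 3).natAbs (Nat.one_le_iff_ne_zero.2 (Int.natAbs_ne_zero.2 hn0))
    have h7 : C * (((4 * x.1 ^ 3).natAbs : ℕ) : ℝ) ^ ε ≤ C * (4 * A ^ 3) ^ ε := by
      rw [hnA]
      gcongr
    have h8 : (K : ℝ) ≤ 39366 * (√(A ^ 3) * √Y) * Q / a₀ ^ 3 + 1 :=
      (Nat.ceil_lt_add_one (by positivity)).le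
    rw [hN]
    refine mul_le_mul ?_ (h6.trans h7) (by positivity) (by positivity)
    linarith
  have hNpos : 0 ≤ N := by rw [hN]; positivity
  have h4 : (I.card : ℝ) ≤ (3 * A) * (3 * Q) := by
    have h5 : I.card ≤ (2 * ⌊A⌋₊ + 1) * (2 * ⌊Q⌋₊ + 1) := by
      refine (Finset.card_filter_le _ _).trans ?_
      rw [Finset.card_product, Int.card_Icc, Int.card_Icc]
      have e1 : ∀ n : ℕ, ((n : ℤ) + 1 - -(n : ℤ)).toNat = 2 * n + 1 := fun n => by omega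
      rw [e1, e1]
    have h6 : (I.card : ℝ) ≤ (2 * (⌊A⌋₊ : ℝ) + 1) * (2 * (⌊Q⌋₊ : ℝ) + 1) := by exact_mod_cast h5
    have h7 := Nat.floor_le hA0.le
    have h8 := Nat.floor_le hQ0.le
    refine h6.trans (mul_le_mul (by linarith) (by linarith) (by positivity) (by positivity))
  calc (({z | z ∈ Big Y A L ∧ a₀ ≤ |(z.1 : ℝ)|} : Set (ℤ × ℤ)).ncard : ℝ)
      ≤ ∑ x ∈ I, (((S x.1 x.2).image fun s : ℤ × ℕ => (x.1, s.1)).card : ℝ) := by exact_mod_cast h2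
    _ ≤ ∑ x ∈ I, N := Finset.sum_le_sum h3
    _ = I.card * N := by rw [Finset.sum_const, nsmul_eq_mul]
    _ ≤ _ := mul_le_mul_of_nonneg_right h4 hNpos

theorem bigp {η l : ℝ} (hη : 0 < η) (hη2 : η ≤ 1 / 40) (hl : 0 < l) (hl2 : l ≤ 1 / 40) :
    ∃ C : ℝ, 0 < C ∧ ∀ Y : ℝ, 8 ≤ Y →
    ((Big Y (Y ^ (1 / 3 + η)) (Y ^ (1 / 2 - l))).ncard : ℝ) ≤
      C * (Y ^ ((5 : ℝ) / 6) * Y ^ (-η)) := by
  obtain ⟨C, hC, hdiv⟩ := Pool.Agent.H510R2.divisor_bound (1 / 40) (by norm_num)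
  refine ⟨9 + 9 * (2 * (2 * (39366 + 1) + 1) * (C * 4)), by positivity, fun Y hY => ?_⟩
  have hY1 : 1 ≤ Y := by linarith
  have hY0 : 0 < Y := by linarith
  have hmono : ∀ {s t : ℝ}, s ≤ t → Y ^ s ≤ Y ^ t := fun h =>
    Real.rpow_le_rpow_of_exponent_le hY1 h
  have hA : 1 ≤ Y ^ (1 / 3 + η) := Real.one_le_rpow hY1 (by linarith)
  have ha1 : 1 ≤ Y ^ (1 / 3 - η) := Real.one_le_rpow hY1 (by linarith)
  have e3 : ∀ s : ℝ, (Y ^ s) ^ 3 = Y ^ (3 * s) := by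
    intro s
    rw [← Real.rpow_natCast, ← Real.rpow_mul hY0.le]
    congr 1
    push_cast
    ring
  have hYA : Y ≤ (Y ^ (1 / 3 + η)) ^ 3 := by
    rw [e3]
    conv_lhs => rw [← Real.rpow_one Y]
    exact hmono (by linarith)
  have haY : (Y ^ (1 / 3 - η)) ^ 3 ≤ Y := by
    rw [e3]
    conv_rhs => rw [← Real.rpow_one Y]
    exact hmono (by linarith)
  have hL : 2 ≤ Y ^ (1 / 2 - l) := by
    calc (2 : ℝ) = (8 : ℝ) ^ ((1 : ℝ) / 3) := by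
          rw [show (8 : ℝ) = 2 ^ (3 : ℝ) by norm_num, ← Real.rpow_mul (by norm_num)]
          norm_num
      _ ≤ Y ^ ((1 : ℝ) / 3) := Real.rpow_le_rpow (by norm_num) hY (by norm_num)
      _ ≤ Y ^ (1 / 2 - l) := hmono (by linarith)
  have hAL : Y ^ (1 / 3 + η) ≤ Y ^ (1 / 2 - l) := hmono (by linarith)
  have hQ : Y / (Y ^ (1 / 2 - l)) ^ 2 = Y ^ (2 * l) := by
    rw [← Real.rpow_natCast, ← Real.rpow_mul hY0.le]
    conv_lhs => rw [← Real.rpow_one Y]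
    rw [Real.rpow_one, show Y / Y ^ ((1 / 2 - l) * ((2 : ℕ) : ℝ)) =
      Y ^ (1 : ℝ) / Y ^ ((1 / 2 - l) * ((2 : ℕ) : ℝ)) by rw [Real.rpow_one], ← Real.rpow_sub hY0]
    congr 1
    push_cast
    ring
  have hM : 1 ≤ Y / (Y ^ (1 / 2 - l)) ^ 2 := by
    rw [hQ]
    exact Real.one_le_rpow hY1 (by linarith)
  have g1 := big_main (by norm_num : (0 : ℝ) < 1 / 40) hC hdiv hY1 hA hYA hL hAL
    (show 0 < Y ^ (1 / 3 - η) by linarith) hM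
  have g2 := small_a hY1 ha1 haY
  have hsq : √Y = Y ^ ((1 : ℝ) / 2) := Real.sqrt_eq_rpow Y
  have hsA : √((Y ^ (1 / 3 + η)) ^ 3) = Y ^ (1 / 2 + 3 / 2 * η) := by
    rw [e3, Real.sqrt_eq_rpow, ← Real.rpow_mul hY0.le]
    congr 1
    ring
  have hY56 : Y ^ ((5 : ℝ) / 6) * Y ^ (-η) = Y ^ (5 / 6 - η) := by
    rw [← Real.rpow_add hY0]
    ring_nf
  -- the first part
  have p1 : 9 * (Y ^ (1 / 3 - η) * √Y) = 9 * Y ^ (5 / 6 - η) := by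
    rw [hsq, ← Real.rpow_add hY0]
    congr 2
    ring
  -- the second part
  have p2 : 39366 * (√((Y ^ (1 / 3 + η)) ^ 3) * √Y) * (Y / (Y ^ (1 / 2 - l)) ^ 2) /
      (Y ^ (1 / 3 - η)) ^ 3 = 39366 * Y ^ (9 / 2 * η + 2 * l) := by
    rw [hsA, hsq, hQ, e3, div_eq_iff (Real.rpow_pos_of_pos hY0 _).ne']
    have q1 : Y ^ (1 / 2 + 3 / 2 * η) * Y ^ ((1 : ℝ) / 2) * Y ^ (2 * l) =
        Y ^ (9 / 2 * η + 2 * l) * Y ^ (3 * (1 / 3 - η)) := by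
      rw [← Real.rpow_add hY0, ← Real.rpow_add hY0, ← Real.rpow_add hY0]
      congr 1
      ring
    linear_combination 39366 * q1
  rw [p2, hQ] at g1
  have hK1 : 1 ≤ Y ^ (9 / 2 * η + 2 * l) := Real.one_le_rpow hY1 (by linarith)
  have p3 : (4 * (Y ^ (1 / 3 + η)) ^ 3) ^ ((1 : ℝ) / 40) ≤ 4 * Y ^ ((1 + 3 * η) / 40) := by
    rw [e3, Real.mul_rpow (by norm_num) (by positivity), ← Real.rpow_mul hY0.le]
    refine mul_le_mul ?_ (hmono (by linarith)) (by positivity) (by norm_num)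
    calc (4 : ℝ) ^ ((1 : ℝ) / 40) ≤ 4 ^ (1 : ℝ) :=
          Real.rpow_le_rpow_of_exponent_le (by norm_num) (by norm_num)
      _ = 4 := Real.rpow_one _
  have p4 : 3 * Y ^ (1 / 3 + η) * (3 * Y ^ (2 * l)) *
      (2 * (2 * (39366 * Y ^ (9 / 2 * η + 2 * l) + 1) + 1) *
        (C * (4 * (Y ^ (1 / 3 + η)) ^ 3) ^ ((1 : ℝ) / 40))) ≤
      9 * (2 * (2 * (39366 + 1) + 1) * (C * 4)) * Y ^ (5 / 6 - η) := by
    calc _ ≤ 3 * Y ^ (1 / 3 + η) * (3 * Y ^ (2 * l)) *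
          ((2 * (2 * (39366 + 1) + 1) * Y ^ (9 / 2 * η + 2 * l)) *
            (C * (4 * Y ^ ((1 + 3 * η) / 40)))) := by
          refine mul_le_mul_of_nonneg_left ?_ (by positivity)
          refine mul_le_mul ?_ (mul_le_mul_of_nonneg_left p3 hC.le) (by positivity) (by positivity)
          linarith
      _ = 9 * (2 * (2 * (39366 + 1) + 1) * (C * 4)) * (Y ^ (1 / 3 + η) * Y ^ (2 * l) *
            Y ^ (9 / 2 * η + 2 * l) * Y ^ ((1 + 3 * η) / 40)) := by ring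
      _ ≤ _ := by
          refine mul_le_mul_of_nonneg_left ?_ (by positivity)
          rw [← Real.rpow_add hY0, ← Real.rpow_add hY0, ← Real.rpow_add hY0]
          exact hmono (by linarith)
  have hsub : Big Y (Y ^ (1 / 3 + η)) (Y ^ (1 / 2 - l)) ⊆
      {z | z ∈ Big Y (Y ^ (1 / 3 + η)) (Y ^ (1 / 2 - l)) ∧ Y ^ (1 / 3 - η) ≤ |(z.1 : ℝ)|} ∪
      Fam (fun _ _ => True) Y (Y ^ (1 / 3 - η)) := by
    intro z hz
    rcases le_total (Y ^ (1 / 3 - η)) |(z.1 : ℝ)| with h | h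
    · exact Or.inl ⟨hz, h⟩
    · exact Or.inr ⟨h, hz.1.2⟩
  have hfin : (Big Y (Y ^ (1 / 3 + η)) (Y ^ (1 / 2 - l))).Finite :=
    (fam_finite _ _ _).subset fun z hz => hz.1
  have g3 := (Set.ncard_le_ncard hsub ((hfin.subset fun z hz => hz.1).union
    (fam_finite _ _ _))).trans (Set.ncard_union_le _ _)
  have g4 := (Nat.cast_le (α := ℝ)).2 g3
  push_cast at g4
  rw [hY56]
  rw [p1] at g2
  have g5 := g1.trans p4
  linarith

end Pool.Agent.H460.EC
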