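import Mathlib

/-! Few points `(b, p)` with `p` prime on the conic `27 b² + m p² = n`. -/

set_option autoImplicit false

namespace Pool.Agent.H460.EC

/-- `(b, p)` is on the conic, `p` is prime and does not divide `n`; bounds -/
def OnC (n m : ℤ) (B B' : ℕ) (s : ℤ × ℕ) : Prop :=
  27 * s.1 ^ 2 + m * (s.2 : ℤ) ^ 2 = n ∧ s.2.Prime ∧ ¬ ((s.2 : ℤ) ∣ n) ∧ s.1.natAbs ≤ B ∧ s.2 ≤ B'

theorem conic_line {n m : ℤ} (hn : n ≠ 0) {B B' : ℕ} {s₁ : ℤ × ℕ} (h₁ : OnC n m B B' s₁) (x : ℤ)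
    (F : Finset (ℤ × ℕ)) (hF : ∀ s ∈ F, OnC n m B B' s ∧ s₁.1 * s.2 - s.1 * s₁.2 = x) :
    F.card ≤ 2 := by
  by_contra hc
  push Not at hc
  obtain ⟨s, hs, s', hs', s'', hs'', h12, h13, h23⟩ := Finset.two_lt_card.1 hc
  have hp₁ : (s₁.2 : ℤ) ≠ 0 := by exact_mod_cast h₁.2.1.ne_zero
  have key : ∀ t ∈ F, ∀ t' ∈ F, t ≠ t' →
      27 * s₁.1 * (t.1 + t'.1) + m * s₁.2 * ((t.2 : ℤ) + t'.2) = 0 := by
    intro t ht t' ht' hne
    obtain ⟨⟨a1, _⟩, a2⟩ := hF t ht
    obtain ⟨⟨b1, _⟩, b2⟩ := hF t' ht'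
    have c1 : s₁.1 * ((t.2 : ℤ) - t'.2) = (t.1 - t'.1) * s₁.2 := by linear_combination a2 - b2
    have c2 : 27 * (t.1 - t'.1) * (t.1 + t'.1) + m * ((t.2 : ℤ) - t'.2) * ((t.2 : ℤ) + t'.2) = 0 := by
      linear_combination a1 - b1
    have c3 : ((t.2 : ℤ) - t'.2) *
        (27 * s₁.1 * (t.1 + t'.1) + m * s₁.2 * ((t.2 : ℤ) + t'.2)) = 0 := by
      linear_combination s₁.2 * c2 + 27 * (t.1 + t'.1) * c1
    rcases mul_eq_zero.1 c3 with c4 | c4
    · exfalso
      apply hne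
      rw [c4, mul_zero] at c1
      have c5 : t.1 - t'.1 = 0 := (mul_eq_zero.1 c1.symm).resolve_right hp₁
      ext
      · linarith
      · have : (t.2 : ℤ) = t'.2 := by linarith
        exact_mod_cast this
    · exact c4
  have k1 := key s hs s' hs' h12
  have k2 := key s hs s'' hs'' h13
  obtain ⟨-, a2⟩ := hF s' hs'
  obtain ⟨-, b2⟩ := hF s'' hs''
  have c1 : s₁.1 * ((s'.2 : ℤ) - s''.2) = (s'.1 - s''.1) * s₁.2 := by linear_combination a2 - b2
  have c2 : n * ((s'.2 : ℤ) - s''.2) = 0 := by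
    have := h₁.1
    linear_combination (-((s'.2 : ℤ) - s''.2)) * this + s₁.2 * (k1 - k2) + 27 * s₁.1 * c1
  have c3 : (s'.2 : ℤ) - s''.2 = 0 := (mul_eq_zero.1 c2).resolve_left hn
  apply h23
  rw [c3, mul_zero] at c1
  have c5 : s'.1 - s''.1 = 0 := (mul_eq_zero.1 c1.symm).resolve_right hp₁
  ext
  · linarith
  · have : (s'.2 : ℤ) = s''.2 := by linarith
    exact_mod_cast this

theorem cop_of {n : ℤ} {p : ℕ} (hp : p.Prime) (h : ¬ ((p : ℤ) ∣ n)) {g : ℤ} (hg : g ∣ n) :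
    IsCoprime g (p : ℤ) := by
  have h1 : IsCoprime (p : ℤ) g := by
    rw [(Nat.prime_iff_prime_int.1 hp).irreducible.coprime_iff_not_dvd]
    exact fun h2 => h (h2.trans hg)
  exact h1.symm

theorem conic {n m : ℤ} (hn : n ≠ 0) (hm : m ≠ 0) {B B' K : ℕ} (S : Finset (ℤ × ℕ))
    (hS : ∀ s ∈ S, OnC n m B B' s) (hK : 54 * (B * B') * (2916 * m.natAbs) ≤ K * n.natAbs) :
    S.card ≤ 2 * (2 * K + 1) * n.natAbs.divisors.card := by
  classical
  rcases S.eq_empty_or_nonempty with rfl | ⟨s₀, hs₀⟩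
  · simp
  have hN0 : n.natAbs ≠ 0 := Int.natAbs_ne_zero.2 hn
  obtain ⟨e0, p0, d0, -, -⟩ := hS s₀ hs₀
  let G : ℤ × ℕ → ℕ := fun s => Int.gcd n (s₀.1 * s.2 - s.1 * s₀.2)
  have hG : ∀ s, (G s) ∣ n.natAbs := fun s => Int.gcd_dvd_natAbs_left _ _
  have hcard := Finset.card_le_mul_card_image (f := G) S (2 * (2 * K + 1)) ?_
  · refine hcard.trans (Nat.mul_le_mul_left _ (Finset.card_le_card ?_))
    intro g hg
    obtain ⟨s, _, rfl⟩ := Finset.mem_image.1 hg
    exact Nat.mem_divisors.2 ⟨hG s, hN0⟩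
  · intro g hg
    obtain ⟨s₁, hs₁, hg₁⟩ := Finset.mem_image.1 hg
    obtain ⟨e1, p1, d1, b1, c1⟩ := hS s₁ hs₁
    have hgn : (g : ℤ) ∣ n := by
      rw [← hg₁]
      exact Int.gcd_dvd_left _ _
    obtain ⟨n', hn'⟩ := hgn
    have hg0 : (g : ℤ) ≠ 0 := by
      rintro h
      rw [h, zero_mul] at hn'
      exact hn hn'
    have hn'0 : n' ≠ 0 := by
      rintro rfl
      rw [mul_zero] at hn'
      exact hn hn'
    -- the divisibilities for all members of the fibre
    have hdiv : ∀ s ∈ S, G s = g → (g : ℤ) ∣ s₀.1 * s.2 - s.1 * s₀.2 ∧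
        n' ∣ 27 * (s₀.1 * s.2 + s.1 * s₀.2) := by
      intro s hs hgs
      have a1 : (g : ℤ) ∣ s₀.1 * s.2 - s.1 * s₀.2 := by
        rw [← hgs]
        exact Int.gcd_dvd_right _ _
      refine ⟨a1, ?_⟩
      obtain ⟨u, hu⟩ := a1
      have a2 : IsCoprime n' u := by
        have a3 : Int.gcd n (s₀.1 * s.2 - s.1 * s₀.2) = g := hgs
        rw [hn', hu, Int.gcd_mul_left, Int.natAbs_natCast] at a3
        have hgn0 : g ≠ 0 := by exact_mod_cast hg0
        have a4 : Int.gcd n' u = 1 := by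
          have : g * Int.gcd n' u = g * 1 := by rw [a3, mul_one]
          exact Nat.eq_of_mul_eq_mul_left (Nat.pos_of_ne_zero hgn0) this
        exact Int.isCoprime_iff_gcd_eq_one.2 a4
      obtain ⟨es, -, -, -, -⟩ := hS s hs
      have a5 : (g : ℤ) * n' ∣ g * (u * (27 * (s₀.1 * s.2 + s.1 * s₀.2))) := by
        refine ⟨(s.2 : ℤ) ^ 2 - (s₀.2 : ℤ) ^ 2, ?_⟩
        rw [← hn', ← mul_assoc, ← hu]
        linear_combination (s.2 : ℤ) ^ 2 * e0 - (s₀.2 : ℤ) ^ 2 * es
      have a6 := (mul_dvd_mul_iff_left hg0).1 a5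
      exact a2.dvd_of_dvd_mul_left a6
    -- the gcd is small
    set h : ℕ := Int.gcd g n' with hh
    have hhn : (h : ℤ) ∣ n := by
      rw [hn']
      exact (Int.gcd_dvd_left (g : ℤ) n').mul_right _
    have h2n : (h : ℤ) ^ 2 ∣ n := by
      rw [hn', sq]
      exact mul_dvd_mul (Int.gcd_dvd_left _ _) (Int.gcd_dvd_right _ _)
    obtain ⟨f1, f2⟩ := hdiv s₁ hs₁ hg₁
    have h54 : (h : ℤ) ∣ 54 * s₀.1 := by
      have a1 : (h : ℤ) ∣ (54 * s₀.1) * s₁.2 := by
        have a2 := ((Int.gcd_dvd_left (g : ℤ) n').trans f1).mul_left 27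
        have a3 := (Int.gcd_dvd_right (g : ℤ) n').trans f2
        have a4 := dvd_add a2 a3
        have a5 : 27 * (s₀.1 * s₁.2 - s₁.1 * s₀.2) + 27 * (s₀.1 * s₁.2 + s₁.1 * s₀.2) =
          (54 * s₀.1) * s₁.2 := by ring
        rwa [a5] at a4
      exact (cop_of p1 d1 hhn).dvd_of_dvd_mul_right a1
    have hm2 : (h : ℤ) ^ 2 ∣ 2916 * m := by
      have a1 : (h : ℤ) ^ 2 ∣ (2916 * m) * (s₀.2 : ℤ) ^ 2 := by
        have a2 : (h : ℤ) ^ 2 ∣ 27 * (54 * s₀.1) ^ 2 := (pow_dvd_pow_of_dvd h54 2).mul_left 27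
        have a3 : (h : ℤ) ^ 2 ∣ 2916 * n := h2n.mul_left _
        have a4 := dvd_sub a3 a2
        have a5 : 2916 * n - 27 * (54 * s₀.1) ^ 2 = (2916 * m) * (s₀.2 : ℤ) ^ 2 := by
          rw [← e0]
          ring
        rwa [a5] at a4
      exact ((cop_of p0 d0 hhn).pow (m := 2) (n := 2)).dvd_of_dvd_mul_right a1
    have hhb : h ≤ 2916 * m.natAbs := by
      have a1 : h ^ 2 ∣ 2916 * m.natAbs := by
        have := Int.natAbs_dvd_natAbs.2 hm2
        rwa [Int.natAbs_pow, Int.natAbs_natCast, Int.natAbs_mul] at this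
      have a2 := Nat.le_of_dvd (by
        have := Int.natAbs_pos.2 hm
        omega) a1
      exact (Nat.le_self_pow (by norm_num) h).trans a2
    have hh0 : 0 < h := Nat.pos_of_ne_zero fun h0 => by
      rw [h0] at hhn
      exact hn (zero_dvd_iff.1 (by exact_mod_cast hhn))
    -- the multiples
    set L : ℕ := Int.lcm g n' with hL
    have hLh : h * L = n.natAbs := by
      rw [hh, hL, Int.gcd_mul_lcm, hn', Int.natAbs_mul, Int.natAbs_natCast]
    have hL0 : L ≠ 0 := by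
      intro h0
      rw [h0, mul_zero] at hLh
      exact hN0 hLh.symm
    have hKL : 54 * (B * B') ≤ K * L := by
      have a1 : 54 * (B * B') * h ≤ K * L * h := by
        calc 54 * (B * B') * h ≤ 54 * (B * B') * (2916 * m.natAbs) := Nat.mul_le_mul_left _ hhb
          _ ≤ K * n.natAbs := hK
          _ = K * L * h := by rw [← hLh]; ring
      exact Nat.le_of_mul_le_mul_right a1 hh0
    have hΔ : ∀ s ∈ S, G s = g → (L : ℤ) ∣ 27 * (s₁.1 * s.2 - s.1 * s₁.2) := by
      intro s hs hgs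
      obtain ⟨a1, a2⟩ := hdiv s hs hgs
      have a3 : (g : ℤ) ∣ 27 * (s₁.1 * s.2 - s.1 * s₁.2) := by
        have a4 : (g : ℤ) ∣ (27 * (s₁.1 * s.2 - s.1 * s₁.2)) * s₀.2 := by
          have a5 := (dvd_sub (a1.mul_left (s₁.2 : ℤ)) (f1.mul_left (s.2 : ℤ))).mul_left 27
          have a6 : 27 * ((s₁.2 : ℤ) * (s₀.1 * s.2 - s.1 * s₀.2) -
            s.2 * (s₀.1 * s₁.2 - s₁.1 * s₀.2)) = (27 * (s₁.1 * s.2 - s.1 * s₁.2)) * s₀.2 := by ring
          rwa [a6] at a5
        exact (cop_of p0 d0 ⟨n', hn'⟩).dvd_of_dvd_mul_right a4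
      have a4 : n' ∣ 27 * (s₁.1 * s.2 - s.1 * s₁.2) := by
        have a4 : n' ∣ (27 * (s₁.1 * s.2 - s.1 * s₁.2)) * s₀.2 := by
          have a5 := dvd_sub (f2.mul_left (s.2 : ℤ)) (a2.mul_left (s₁.2 : ℤ))
          have a6 : (s.2 : ℤ) * (27 * (s₀.1 * s₁.2 + s₁.1 * s₀.2)) -
            s₁.2 * (27 * (s₀.1 * s.2 + s.1 * s₀.2)) = (27 * (s₁.1 * s.2 - s.1 * s₁.2)) * s₀.2 := by
            ring
          rwa [a6] at a5
        exact (cop_of p0 d0 ⟨g, by rw [hn']; ring⟩).dvd_of_dvd_mul_right a4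
      exact Int.coe_lcm_dvd a3 a4
    set F := S.filter fun s => G s = g with hF
    have hcard2 := Finset.card_le_mul_card_image (f := fun s : ℤ × ℕ => s₁.1 * s.2 - s.1 * s₁.2)
      F 2 ?_
    · refine hcard2.trans (Nat.mul_le_mul_left _ ?_)
      -- the image is in the set of multiples
      have a1 : (F.image fun s : ℤ × ℕ => s₁.1 * s.2 - s.1 * s₁.2).card ≤
          (Finset.Icc (-(K : ℤ)) K).card := by
        refine Finset.card_le_card_of_injOn (fun x => 27 * x / L) ?_ ?_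
        · intro x hx
          obtain ⟨s, hs, rfl⟩ := Finset.mem_image.1 (Finset.mem_coe.1 hx)
          rw [hF, Finset.mem_filter] at hs
          obtain ⟨k, hk⟩ := hΔ s hs.1 hs.2
          obtain ⟨-, -, -, b2, c2⟩ := hS s hs.1
          have hLz : (L : ℤ) ≠ 0 := by exact_mod_cast hL0
          simp only
          rw [hk, Int.mul_ediv_cancel_left _ hLz]
          have a2 : |27 * (s₁.1 * (s.2 : ℤ) - s.1 * s₁.2)| ≤ 54 * (B * B' : ℕ) := by
            have a3 : |s₁.1 * (s.2 : ℤ)| ≤ (B * B' : ℕ) := by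
              rw [abs_mul]
              push_cast
              refine mul_le_mul ?_ ?_ (abs_nonneg _) (by positivity)
              · rw [Int.abs_eq_natAbs]
                exact_mod_cast b1
              · rw [Int.abs_eq_natAbs, Int.natAbs_natCast]
                exact_mod_cast c2
            have a4 : |s.1 * (s₁.2 : ℤ)| ≤ (B * B' : ℕ) := by
              rw [abs_mul]
              push_cast
              refine mul_le_mul ?_ ?_ (abs_nonneg _) (by positivity)
              · rw [Int.abs_eq_natAbs]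
                exact_mod_cast b2
              · rw [Int.abs_eq_natAbs, Int.natAbs_natCast]
                exact_mod_cast c1
            have a5 := abs_sub (s₁.1 * (s.2 : ℤ)) (s.1 * s₁.2)
            rw [abs_mul]
            norm_num
            push_cast at a3 a4
            linarith
          rw [hk, abs_mul] at a2
          have a6 : |(L : ℤ)| = L := abs_of_nonneg (by positivity)
          rw [a6] at a2
          have a7 : (54 * (B * B' : ℕ) : ℤ) ≤ K * L := by exact_mod_cast hKL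
          have a8 : (L : ℤ) * |k| ≤ L * K := by linarith
          have a9 : |k| ≤ K := le_of_mul_le_mul_left a8 (by positivity)
          rw [Finset.coe_Icc, Set.mem_Icc]
          exact abs_le.1 a9
        · intro x hx y hy hxy
          obtain ⟨s, hs, rfl⟩ := Finset.mem_image.1 (Finset.mem_coe.1 hx)
          obtain ⟨s', hs', rfl⟩ := Finset.mem_image.1 (Finset.mem_coe.1 hy)
          rw [hF, Finset.mem_filter] at hs hs'
          obtain ⟨k, hk⟩ := hΔ s hs.1 hs.2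
          obtain ⟨k', hk'⟩ := hΔ s' hs'.1 hs'.2
          have hLz : (L : ℤ) ≠ 0 := by exact_mod_cast hL0
          simp only at hxy
          rw [hk, hk', Int.mul_ediv_cancel_left _ hLz, Int.mul_ediv_cancel_left _ hLz] at hxy
          rw [hxy, ← hk'] at hk
          linarith
      refine a1.trans (le_of_eq ?_)
      rw [Int.card_Icc]
      omega
    · intro x _
      refine conic_line hn (hS s₁ hs₁) x _ fun s hs => ?_
      rw [Finset.mem_filter, hF, Finset.mem_filter] at hs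
      exact ⟨hS s hs.1.1, hs.2⟩

end Pool.Agent.H460.EC
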