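import Pool.Agent.H460.EC.AreaD

/-! Power saving counts. -/

set_option autoImplicit false

namespace Pool.Agent.H460.EC

open Filter Topology
open Pool.Agent.H828_AC (D)

theorem unif_abs (θ : ℝ) (h1 : 1 / 3 < θ) (h2 : θ < 8 / 3) : ∃ δ C : ℝ, 0 < δ ∧ 0 < C ∧
    ∀ Y : ℝ, 1 ≤ Y → ∀ M : ℕ, 0 < M → ∀ r s : ℤ,
    |((Fam (fun x y => (M : ℤ) ∣ x - r ∧ (M : ℤ) ∣ y - s) Y (Y ^ θ)).ncard : ℝ) -
      c0 * Y ^ ((5 : ℝ) / 6) / (M : ℝ) ^ 2| ≤ C * (Y ^ ((5 : ℝ) / 6) * Y ^ (-δ)) := by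
  set eps := min (1 / 60) ((8 / 3 - θ) / 24) with heps
  have he0 : 0 < eps := lt_min (by norm_num) (by linarith)
  have he1 : eps ≤ 1 / 60 := min_le_left _ _
  have he2 : eps ≤ (8 / 3 - θ) / 24 := min_le_right _ _
  obtain ⟨C, hC, h⟩ := MP.asymp eps he0
  have g1 : 0 < 5 / 6 - (7 / 9 + eps) := by linarith
  have g2 : 0 < 5 / 6 - (1 / 6 + θ * (1 / 4 + eps)) := by nlinarith
  have g3 : 0 < 5 / 6 - (1 - θ / 2) := by linarith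
  set δ := min (5 / 6 - (7 / 9 + eps)) (min (5 / 6 - (1 / 6 + θ * (1 / 4 + eps)))
    (5 / 6 - (1 - θ / 2))) with hδ
  have hδ0 : 0 < δ := lt_min g1 (lt_min g2 g3)
  have hδ1 : δ ≤ 5 / 6 - (7 / 9 + eps) := min_le_left _ _
  have hδ2 : δ ≤ 5 / 6 - (1 / 6 + θ * (1 / 4 + eps)) :=
    (min_le_right _ _).trans (min_le_left _ _)
  have hδ3 : δ ≤ 5 / 6 - (1 - θ / 2) := (min_le_right _ _).trans (min_le_right _ _)
  refine ⟨δ, C * (432 + 432 * 12 + 432), hδ0, by positivity, ?_⟩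
  intro Y hY M hM r s
  have hY0 : 0 < Y := by linarith
  have hM' : (0 : ℝ) < M := by exact_mod_cast hM
  have hp : 0 < Y ^ ((5 : ℝ) / 6) := Real.rpow_pos_of_pos hY0 _
  have hYδ : Y ^ ((5 : ℝ) / 6) * Y ^ (-δ) = Y ^ (5 / 6 - δ) := by
    rw [← Real.rpow_add hY0]
    ring_nf
  have hcond : (432 * Y) ^ ((1 : ℝ) / 3) ≤ 12 * Y ^ θ := by
    rw [Real.mul_rpow (by norm_num) hY0.le]
    have e1 : (432 : ℝ) ^ ((1 : ℝ) / 3) ≤ 12 := by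
      calc (432 : ℝ) ^ ((1 : ℝ) / 3) ≤ (12 ^ (3 : ℝ)) ^ ((1 : ℝ) / 3) :=
            Real.rpow_le_rpow (by norm_num) (by norm_num) (by norm_num)
        _ = 12 := by
            rw [← Real.rpow_mul (by norm_num)]
            norm_num
    exact mul_le_mul e1 (Real.rpow_le_rpow_of_exponent_le hY h1.le) (by positivity) (by norm_num)
  have h3 := h (432 * Y) (12 * Y ^ θ) (by linarith) hcond (12 * r) (12 * M) (108 * s) (108 * M)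
    (by positivity) (by positivity)
  rw [class_ncard]
  have e2 : MP.c * (432 * Y) ^ ((5 : ℝ) / 6) / (((12 * M : ℤ) : ℝ) * ((108 * M : ℤ) : ℝ)) =
      c0 * Y ^ ((5 : ℝ) / 6) / (M : ℝ) ^ 2 := by
    rw [Real.mul_rpow (by norm_num) hY0.le]
    unfold c0
    push_cast
    field_simp
    ring
  rw [e2] at h3
  have hYθ1 : 1 ≤ Y ^ θ := Real.one_le_rpow hY (by linarith)
  have t1 : (432 * Y) ^ (7 / 9 + eps) ≤ 432 * Y ^ (5 / 6 - δ) := by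
    rw [Real.mul_rpow (by norm_num) hY0.le]
    refine mul_le_mul ?_ (Real.rpow_le_rpow_of_exponent_le hY (by linarith)) (by positivity)
      (by norm_num)
    calc (432 : ℝ) ^ (7 / 9 + eps) ≤ (432 : ℝ) ^ (1 : ℝ) :=
          Real.rpow_le_rpow_of_exponent_le (by norm_num) (by linarith)
      _ = 432 := Real.rpow_one _
  have t2 : (432 * Y) ^ ((1 : ℝ) / 6) * (12 * Y ^ θ) ^ (1 / 4 + eps) ≤
      432 * 12 * Y ^ (5 / 6 - δ) := by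
    rw [Real.mul_rpow (by norm_num) hY0.le, Real.mul_rpow (by norm_num) (by positivity),
      ← Real.rpow_mul hY0.le]
    have a1 : (432 : ℝ) ^ ((1 : ℝ) / 6) ≤ 432 := by
      calc (432 : ℝ) ^ ((1 : ℝ) / 6) ≤ (432 : ℝ) ^ (1 : ℝ) :=
            Real.rpow_le_rpow_of_exponent_le (by norm_num) (by norm_num)
        _ = 432 := Real.rpow_one _
    have a2 : (12 : ℝ) ^ (1 / 4 + eps) ≤ 12 := by
      calc (12 : ℝ) ^ (1 / 4 + eps) ≤ (12 : ℝ) ^ (1 : ℝ) :=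
            Real.rpow_le_rpow_of_exponent_le (by norm_num) (by linarith)
        _ = 12 := Real.rpow_one _
    have a3 : Y ^ ((1 : ℝ) / 6) * Y ^ (θ * (1 / 4 + eps)) ≤ Y ^ (5 / 6 - δ) := by
      rw [← Real.rpow_add hY0]
      exact Real.rpow_le_rpow_of_exponent_le hY (by linarith)
    calc (432 : ℝ) ^ ((1 : ℝ) / 6) * Y ^ ((1 : ℝ) / 6) *
          ((12 : ℝ) ^ (1 / 4 + eps) * Y ^ (θ * (1 / 4 + eps)))
        = (432 : ℝ) ^ ((1 : ℝ) / 6) * (12 : ℝ) ^ (1 / 4 + eps) *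
          (Y ^ ((1 : ℝ) / 6) * Y ^ (θ * (1 / 4 + eps))) := by ring
      _ ≤ 432 * 12 * Y ^ (5 / 6 - δ) := by
          refine mul_le_mul (mul_le_mul a1 a2 (by positivity) (by norm_num)) a3 (by positivity)
            (by norm_num)
  have t3 : 432 * Y / √(12 * Y ^ θ) ≤ 432 * Y ^ (5 / 6 - δ) := by
    have a1 : Y ^ (θ / 2) ≤ √(12 * Y ^ θ) := by
      refine Real.le_sqrt_of_sq_le ?_
      rw [← Real.rpow_natCast, ← Real.rpow_mul hY0.le]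
      have : θ / 2 * ((2 : ℕ) : ℝ) = θ := by push_cast; ring
      rw [this]
      linarith
    have hp2 : 0 < Y ^ (θ / 2) := Real.rpow_pos_of_pos hY0 _
    rw [div_le_iff₀ (lt_of_lt_of_le hp2 a1)]
    have a2 : Y ≤ Y ^ (5 / 6 - δ) * Y ^ (θ / 2) := by
      rw [← Real.rpow_add hY0]
      conv_lhs => rw [← Real.rpow_one Y]
      exact Real.rpow_le_rpow_of_exponent_le hY (by linarith)
    have hp3 : 0 < Y ^ (5 / 6 - δ) := Real.rpow_pos_of_pos hY0 _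
    have a3 : Y ^ (5 / 6 - δ) * Y ^ (θ / 2) ≤ Y ^ (5 / 6 - δ) * √(12 * Y ^ θ) :=
      mul_le_mul_of_nonneg_left a1 hp3.le
    nlinarith
  rw [hYδ]
  have h5 : C * ((432 * Y) ^ (7 / 9 + eps) + (432 * Y) ^ ((1 : ℝ) / 6) *
      (12 * Y ^ θ) ^ (1 / 4 + eps) + 432 * Y / √(12 * Y ^ θ)) ≤
      C * (432 + 432 * 12 + 432) * Y ^ (5 / 6 - δ) := by
    rw [mul_assoc]
    refine mul_le_mul_of_nonneg_left ?_ hC.le
    linarith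
  exact h3.trans h5

theorem all_abs (θ : ℝ) (h1 : 1 / 3 < θ) (h2 : θ < 8 / 3) : ∃ δ C : ℝ, 0 < δ ∧ 0 < C ∧
    ∀ Y : ℝ, 1 ≤ Y →
    |((Fam (fun _ _ => True) Y (Y ^ θ)).ncard : ℝ) - c0 * Y ^ ((5 : ℝ) / 6)| ≤
      C * (Y ^ ((5 : ℝ) / 6) * Y ^ (-δ)) := by
  obtain ⟨δ, C, hδ, hC, h⟩ := unif_abs θ h1 h2
  refine ⟨δ, C, hδ, hC, fun Y hY => ?_⟩
  have h3 := h Y hY 1 one_pos 0 0
  have h4 : Fam (fun x y => ((1 : ℕ) : ℤ) ∣ x - 0 ∧ ((1 : ℕ) : ℤ) ∣ y - 0) Y (Y ^ θ)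
      = Fam (fun _ _ => True) Y (Y ^ θ) := by
    ext z
    simp [Fam]
  have h5 : c0 * Y ^ ((5 : ℝ) / 6) / (((1 : ℕ) : ℝ)) ^ 2 = c0 * Y ^ ((5 : ℝ) / 6) := by
    norm_num
  rwa [h4, h5] at h3

/-- the pairs far in the cusp -/
theorem cusp_small (θ₁ θ₂ : ℝ) (h1 : 1 / 3 < θ₁) (h12 : θ₁ ≤ θ₂) (h2 : θ₂ < 8 / 3) :
    ∃ δ C : ℝ, 0 < δ ∧ 0 < C ∧ ∀ Y : ℝ, 1 ≤ Y →
    ((Fam (fun x _ => Y ^ θ₁ < |(x : ℝ)|) Y (Y ^ θ₂)).ncard : ℝ) ≤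
      C * (Y ^ ((5 : ℝ) / 6) * Y ^ (-δ)) := by
  obtain ⟨δ₁, C₁, hδ₁, hC₁, g1⟩ := all_abs θ₁ h1 (by linarith)
  obtain ⟨δ₂, C₂, hδ₂, hC₂, g2⟩ := all_abs θ₂ (by linarith) h2
  refine ⟨min δ₁ δ₂, C₁ + C₂, lt_min hδ₁ hδ₂, by positivity, fun Y hY => ?_⟩
  have hY0 : 0 < Y := by linarith
  have hp : 0 < Y ^ ((5 : ℝ) / 6) := Real.rpow_pos_of_pos hY0 _
  have h3 := (abs_le.1 (g1 Y hY)).1
  have h4 := (abs_le.1 (g2 Y hY)).2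
  have hle : Y ^ θ₁ ≤ Y ^ θ₂ := Real.rpow_le_rpow_of_exponent_le hY h12
  have hu : Fam (fun _ _ => True) Y (Y ^ θ₂) =
      Fam (fun _ _ => True) Y (Y ^ θ₁) ∪
      Fam (fun x _ => Y ^ θ₁ < |(x : ℝ)|) Y (Y ^ θ₂) := by
    ext z
    simp only [Fam, Set.mem_ofPred_eq, Set.mem_union]
    constructor
    · rintro ⟨g1, g2, g3, g4⟩
      rcases le_or_gt |(z.1 : ℝ)| (Y ^ θ₁) with g | g
      · exact Or.inl ⟨g, g2, g3, trivial⟩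
      · exact Or.inr ⟨g1, g2, g3, g⟩
    · rintro (⟨g1, g2, g3, g4⟩ | ⟨g1, g2, g3, g4⟩)
      · exact ⟨g1.trans hle, g2, g3, trivial⟩
      · exact ⟨g1, g2, g3, trivial⟩
  have hd : Disjoint (Fam (fun _ _ => True) Y (Y ^ θ₁))
      (Fam (fun x _ => Y ^ θ₁ < |(x : ℝ)|) Y (Y ^ θ₂)) := by
    rw [Set.disjoint_left]
    rintro z g1 g2
    exact absurd g1.1 (not_le.2 g2.2.2.2)
  rw [hu, Set.ncard_union_eq hd (fam_finite _ _ _) (fam_finite _ _ _)] at h4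
  push_cast at h4
  have e1 : Y ^ (-δ₁) ≤ Y ^ (-(min δ₁ δ₂)) :=
    Real.rpow_le_rpow_of_exponent_le hY (by have := min_le_left δ₁ δ₂; linarith)
  have e2 : Y ^ (-δ₂) ≤ Y ^ (-(min δ₁ δ₂)) :=
    Real.rpow_le_rpow_of_exponent_le hY (by have := min_le_right δ₁ δ₂; linarith)
  have e3 : C₁ * (Y ^ ((5 : ℝ) / 6) * Y ^ (-δ₁)) ≤ C₁ * (Y ^ ((5 : ℝ) / 6) * Y ^ (-(min δ₁ δ₂))) := by
    gcongr
  have e4 : C₂ * (Y ^ ((5 : ℝ) / 6) * Y ^ (-δ₂)) ≤ C₂ * (Y ^ ((5 : ℝ) / 6) * Y ^ (-(min δ₁ δ₂))) := by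
    gcongr
  rw [add_mul]
  linarith

/-- the pairs with a smaller discriminant -/
theorem smallD (θ η : ℝ) (hη : 0 < η) (hη1 : η < 1) (h1 : 1 / 3 < θ) (h2 : θ / (1 - η) < 8 / 3) :
    ∃ C : ℝ, 0 < C ∧ ∀ Y : ℝ, 1 ≤ Y →
    ((Fam (fun _ _ => True) (Y ^ (1 - η)) (Y ^ θ)).ncard : ℝ) ≤
      C * (Y ^ ((5 : ℝ) / 6) * Y ^ (-(5 / 6 * η))) := by
  have h3 : 1 / 3 < θ / (1 - η) := by
    rw [lt_div_iff₀ (by linarith)]
    nlinarith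
  obtain ⟨δ, C, hδ, hC, g⟩ := all_abs (θ / (1 - η)) h3 h2
  have hc0 := c0_pos
  refine ⟨c0 + C, by positivity, fun Y hY => ?_⟩
  have hY0 : 0 < Y := by linarith
  have hY1 : 1 ≤ Y ^ (1 - η) := Real.one_le_rpow hY (by linarith)
  have h4 := (abs_le.1 (g (Y ^ (1 - η)) hY1)).2
  have e1 : (Y ^ (1 - η)) ^ (θ / (1 - η)) = Y ^ θ := by
    rw [← Real.rpow_mul hY0.le]
    congr 1
    have : 1 - η ≠ 0 := by linarith
    field_simp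
  have e2 : (Y ^ (1 - η)) ^ ((5 : ℝ) / 6) = Y ^ ((5 : ℝ) / 6) * Y ^ (-(5 / 6 * η)) := by
    rw [← Real.rpow_mul hY0.le, ← Real.rpow_add hY0]
    congr 1
    ring
  rw [e1, e2] at h4
  have h5 : (Y ^ (1 - η)) ^ (-δ) ≤ 1 := Real.rpow_le_one_of_one_le_of_nonpos hY1 (by linarith)
  have hp : 0 < Y ^ ((5 : ℝ) / 6) * Y ^ (-(5 / 6 * η)) := by positivity
  have h6 : C * (Y ^ ((5 : ℝ) / 6) * Y ^ (-(5 / 6 * η)) * (Y ^ (1 - η)) ^ (-δ)) ≤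
      C * (Y ^ ((5 : ℝ) / 6) * Y ^ (-(5 / 6 * η)) * 1) := by gcongr
  nlinarith

end Pool.Agent.H460.EC
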