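import Pool.Agent.H460.EX.Mul
import Pool.Agent.H460.EX.Two

/-! The pairs with a discriminant divisible by a square of moderate size. -/

set_option autoImplicit false

namespace Pool.Agent.H460.EC

open Filter Topology
open Pool.Agent.H828_AC (D Qs PQ PQ_per lamq lamq_dens forall_dens)

theorem greedy {n T P : ℕ} (hn : n ≠ 0) (hT : T ≤ n) (hT1 : 1 ≤ T) (hP1 : 1 ≤ P)
    (hP : ∀ p : ℕ, p.Prime → p ∣ n → p ≤ P) : ∃ d : ℕ, d ∣ n ∧ T ≤ d ∧ d ≤ T * P := by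
  classical
  have hex : ∃ d : ℕ, d ∣ n ∧ T ≤ d := ⟨n, dvd_rfl, hT⟩
  obtain ⟨h1, h2⟩ := Nat.find_spec hex
  refine ⟨Nat.find hex, h1, h2, ?_⟩
  set d := Nat.find hex with hd
  by_cases h : d = 1
  · rw [h]
    exact Nat.one_le_iff_ne_zero.2 (mul_ne_zero (by omega) (by omega))
  · obtain ⟨p, hp, hpd⟩ := Nat.exists_prime_and_dvd h
    obtain ⟨k, hk⟩ := hpd
    have hd0 : d ≠ 0 := by
      intro h0
      rw [h0] at h2
      omega
    have hk0 : 0 < k := by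
      rcases Nat.eq_zero_or_pos k with rfl | h3
      · rw [mul_zero] at hk
        exact absurd hk hd0
      · exact h3
    have hkd : k < d := by
      rw [hk]
      have := hp.two_le
      nlinarith
    have h3 : ¬ (k ∣ n ∧ T ≤ k) := Nat.find_min hex hkd
    have h4 : k ∣ n := (Dvd.intro_left p hk.symm).trans h1
    have h5 : k < T := by
      by_contra h6
      exact h3 ⟨h4, by omega⟩
    have h6 : p ≤ P := hP p hp ((Dvd.intro k hk.symm).trans h1)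
    rw [hk, mul_comm T P]
    exact Nat.mul_le_mul h6 h5.le

theorem AA_sq_not {p : ℕ} {a b : ℤ} (h : Qs a b) (hp : p.Prime) {k : ℕ}
    (hd : (p : ℤ) ^ k ∣ D a b) : PQ p k a b := ⟨hd, h.2 p hp⟩

theorem qc : ∃ δ C : ℝ, 0 < δ ∧ 0 < C ∧ ∀ Y : ℝ, 1 ≤ Y → ∀ T₀ T₁ : ℕ, 1 ≤ T₀ →
    (T₁ : ℝ) ^ 8 ≤ Y ^ δ →
    (({z | z ∈ Fam Qs Y (Y ^ (1 : ℝ)) ∧ ∃ q : ℕ, T₀ ≤ q ∧ q ≤ T₁ ∧ (q : ℤ) ^ 2 ∣ D z.1 z.2} :
      Set (ℤ × ℤ)).ncard : ℝ) ≤ C * (T₀ : ℝ) ^ (-(1 / 2) : ℝ) * Y ^ ((5 : ℝ) / 6) := by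
  obtain ⟨δ, C, hδ, hC, h⟩ := unif_per 1 (by norm_num) (by norm_num)
  obtain ⟨C', hC', hg⟩ := gg_tail
  refine ⟨δ, C * C', hδ, by positivity, ?_⟩
  intro Y hY T₀ T₁ hT₀ hT₁
  have hY0 : 0 < Y := by linarith
  let F : ℕ → Set (ℤ × ℤ) := fun q =>
    Fam (fun x y => ∀ p ∈ q.primeFactors, PQ p (2 * q.factorization p) x y) Y (Y ^ (1 : ℝ))
  have hsub : ({z | z ∈ Fam Qs Y (Y ^ (1 : ℝ)) ∧ ∃ q : ℕ, T₀ ≤ q ∧ q ≤ T₁ ∧
      (q : ℤ) ^ 2 ∣ D z.1 z.2} : Set (ℤ × ℤ)) ⊆ ⋃ q ∈ Finset.Icc T₀ T₁, F q := by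
    rintro z ⟨⟨b1, b2, b3, b4⟩, q, hq1, hq2, hq3⟩
    simp only [Set.mem_iUnion, Finset.mem_Icc]
    refine ⟨q, ⟨hq1, hq2⟩, b1, b2, b3, fun p hp => ?_⟩
    have hpp := Nat.prime_of_mem_primeFactors hp
    refine AA_sq_not b4 hpp (dvd_trans ?_ hq3)
    have h1 : p ^ q.factorization p ∣ q := Nat.ordProj_dvd q p
    have h2 : ((p ^ q.factorization p : ℕ) : ℤ) ∣ (q : ℤ) := Int.natCast_dvd_natCast.2 h1
    have h3 := pow_dvd_pow_of_dvd h2 2
    push_cast at h3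
    rwa [← pow_mul, mul_comm (q.factorization p) 2] at h3
  have h1 := (Set.ncard_le_ncard hsub
    (Set.Finite.biUnion (Finset.finite_toSet _) fun q _ => fam_finite _ _ _)).trans
    (Pool.Agent.H828_AC.ncard_biUnion_le _ _)
  have h2 : ∀ q ∈ Finset.Icc T₀ T₁, ((F q).ncard : ℝ) ≤ C * gg q * Y ^ ((5 : ℝ) / 6) := by
    intro q hq
    rw [Finset.mem_Icc] at hq
    have hq0 : q ≠ 0 := by omega
    have hS : ∀ p ∈ q.primeFactors, p.Prime := fun p hp => Nat.prime_of_mem_primeFactors hp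
    obtain ⟨⟨S, hT⟩, hdens⟩ := forall_dens q.primeFactors (fun p => PQ p (2 * q.factorization p))
      (fun p => 2 * q.factorization p + 6) (fun p => lamq p (2 * q.factorization p)) hS
      (fun p hp => PQ_per (hS p hp) _) fun p hp => lamq_dens (hS p hp) _
    have hne : NeZero (∏ p ∈ q.primeFactors, p ^ (2 * q.factorization p + 6)) :=
      ⟨Finset.prod_ne_zero_iff.2 fun p hp => pow_ne_zero _ (hS p hp).ne_zero⟩
    have hM : (∏ p ∈ q.primeFactors, p ^ (2 * q.factorization p + 6)) ≤ q ^ 8 := by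
      conv_rhs => rw [← Nat.prod_factorization_pow_eq_self hq0]
      rw [Finsupp.prod, ← Finset.prod_pow, Nat.support_factorization]
      refine Finset.prod_le_prod' fun p hp => ?_
      rw [← pow_mul]
      refine Nat.pow_le_pow_right (hS p hp).pos ?_
      have g1 := (hS p hp).factorization_pos_of_dvd hq0 (Nat.dvd_of_mem_primeFactors hp)
      omega
    have hM2 : ((∏ p ∈ q.primeFactors, p ^ (2 * q.factorization p + 6) : ℕ) : ℝ) ≤ Y ^ δ := by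
      have g1 : ((∏ p ∈ q.primeFactors, p ^ (2 * q.factorization p + 6) : ℕ) : ℝ) ≤
          ((q ^ 8 : ℕ) : ℝ) := by exact_mod_cast hM
      refine g1.trans (le_trans ?_ hT₁)
      push_cast
      exact pow_le_pow_left₀ (Nat.cast_nonneg _) (by exact_mod_cast hq.2) 8
    exact h _ _ _ hT _ hdens Y hY hM2
  have h3 : (∑ q ∈ Finset.Icc T₀ T₁, ((F q).ncard : ℝ)) ≤
      ∑ q ∈ Finset.Icc T₀ T₁, C * gg q * Y ^ ((5 : ℝ) / 6) := Finset.sum_le_sum h2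
  have h4 := (Nat.cast_le (α := ℝ)).2 h1
  push_cast at h4
  refine h4.trans (h3.trans ?_)
  rw [← Finset.sum_mul, ← Finset.mul_sum]
  refine mul_le_mul_of_nonneg_right ?_ (by positivity)
  rw [mul_assoc]
  refine mul_le_mul_of_nonneg_left ?_ hC.le
  refine hg T₀ _ (by exact_mod_cast hT₀) fun q hq => ?_
  rw [Finset.mem_Icc] at hq
  exact_mod_cast hq.1

end Pool.Agent.H460.EC
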