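import Pool.Agent.H460.EX.BigP

/-! The exceptional set. -/

set_option autoImplicit false

namespace Pool.Agent.H460.EC

open Filter Topology
open Pool.Agent.H828_AC (D Ht Ht_le Qs N6 N6_pos Reg)

theorem sq_part {a b : ℤ} (h0 : D a b ≠ 0) : ∃ Q : ℕ, Q ≠ 0 ∧ (Q : ℤ) ^ 2 ∣ D a b ∧
    (D a b).natAbs ≤ Q ^ 2 * (6 * N6 a b) := by
  obtain ⟨s, Q, hsq, hs⟩ := Nat.sq_mul_squarefree (D a b).natAbs
  have hn0 : (D a b).natAbs ≠ 0 := Int.natAbs_ne_zero.2 h0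
  have hQ0 : Q ≠ 0 := by
    rintro rfl
    rw [zero_pow (by norm_num), zero_mul] at hsq
    exact hn0 hsq.symm
  refine ⟨Q, hQ0, ?_, ?_⟩
  · have : ((Q ^ 2 : ℕ) : ℤ) ∣ D a b := Int.natCast_dvd.2 ⟨s, hsq.symm⟩
    exact_mod_cast this
  · rw [← hsq]
    refine Nat.mul_le_mul_left _ (Nat.le_of_dvd (Nat.mul_pos (by norm_num) (N6_pos a b)) ?_)
    have hs0 : s ≠ 0 := by
      rintro rfl
      rw [mul_zero] at hsq
      exact hn0 hsq.symm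
    have h6 : 6 * N6 a b ≠ 0 := (Nat.mul_pos (by norm_num) (N6_pos a b)).ne'
    rw [← Nat.factorization_le_iff_dvd hs0 h6]
    intro p
    by_cases hp : p.Prime
    · by_cases hps : p ∣ s
      · have h1 : s.factorization p ≤ 1 := hs.natFactorization_le_one p
        refine h1.trans ?_
        have hpD : p ∣ (D a b).natAbs := by
          rw [← hsq]
          exact hps.mul_left _
        refine hp.factorization_pos_of_dvd h6 ?_
        by_cases h5 : 5 ≤ p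
        · refine Dvd.dvd.mul_left ?_ _
          have h7 : 0 < (N6 a b).factorization p := by
            rw [Pool.Agent.H828_AC.N6_fact h0 hp, if_pos h5]
            unfold Pool.Agent.H828_AC.eN
            have h8 : (p : ℤ) ∣ D a b := Int.natCast_dvd.2 hpD
            rw [if_pos h8]
            split_ifs <;> norm_num
          exact Nat.dvd_of_factorization_pos h7.ne'
        · refine Dvd.dvd.mul_right ?_ _
          have h2 := hp.two_le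
          have h4 : p ≠ 4 := by
            rintro rfl
            exact absurd hp (by norm_num)
          have : p = 2 ∨ p = 3 := by omega
          rcases this with rfl | rfl <;> norm_num
      · rw [Nat.factorization_eq_zero_of_not_dvd hps]
        exact Nat.zero_le _
    · rw [Nat.factorization_eq_zero_of_not_prime _ hp]
      exact Nat.zero_le _

/-- the exceptions -/
def Ex (ε κ Y : ℝ) : Set (ℤ × ℤ) :=
  {z | Qs z.1 z.2 ∧ |(D z.1 z.2 : ℝ)| ≤ Y ∧ Ht z.1 z.2 ≤ Y ^ κ ∧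
    (N6 z.1 z.2 : ℝ) ^ (1 + ε) < Ht z.1 z.2}

theorem ex_fam {ε κ Y : ℝ} (hY : 1 ≤ Y) {κ' : ℝ} (hκ : κ ≤ κ') {z : ℤ × ℤ} (hz : z ∈ Ex ε κ Y) :
    z ∈ Fam Qs Y (Y ^ (κ' / 3)) := by
  obtain ⟨h1, h2, h3, h4⟩ := hz
  have hY0 : 0 < Y := by linarith
  refine ⟨?_, h1.1, h2, h1⟩
  have g1 : 4 * |(z.1 : ℝ)| ^ 3 ≤ Y ^ κ' :=
    (le_max_left _ _).trans (h3.trans (Real.rpow_le_rpow_of_exponent_le hY hκ))
  have g2 : (Y ^ (κ' / 3)) ^ 3 = Y ^ κ' := by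
    rw [← Real.rpow_natCast, ← Real.rpow_mul hY0.le]
    congr 1
    push_cast
    ring
  have g3 : |(z.1 : ℝ)| ^ 3 ≤ (Y ^ (κ' / 3)) ^ 3 := by
    rw [g2]
    have : 0 ≤ |(z.1 : ℝ)| ^ 3 := by positivity
    linarith
  exact (pow_le_pow_iff_left₀ (abs_nonneg _) (by positivity) (by norm_num)).1 g3

/-- the numerical inequality -/
theorem num_aux {Y ε η τ N H T : ℝ} (hY : 1 ≤ Y) (hε : 0 < ε) (hε1 : ε ≤ 1) (hη : 0 < η)
    (hη2 : η ≤ ε / 32) (hτ : 0 < τ) (hτ2 : τ ≤ ε / 16) (hT0 : 0 < T) (hT : T ≤ 2 * Y ^ τ)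
    (hN : Y ^ (1 - η) ≤ T ^ 2 * (6 * N)) (hN1 : 1 ≤ N) (hH : H ≤ 5 * Y ^ (1 + 3 * η))
    (hbig : 2880 ≤ Y ^ (ε / 2)) : H ≤ N ^ (1 + ε) := by
  have hY0 : 0 < Y := by linarith
  have hT2 : T ^ 2 ≤ 4 * Y ^ (2 * τ) := by
    have h1 := pow_le_pow_left₀ hT0.le hT 2
    have e1 : (2 * Y ^ τ) ^ 2 = 4 * Y ^ (2 * τ) := by
      rw [mul_pow, ← Real.rpow_natCast (Y ^ τ), ← Real.rpow_mul hY0.le, mul_comm τ]
      norm_num
    rwa [e1] at h1
  have h1 : Y ^ (1 - η - 2 * τ) / 24 ≤ N := by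
    rw [div_le_iff₀ (by norm_num)]
    have h2 : Y ^ (1 - η) ≤ 4 * Y ^ (2 * τ) * (6 * N) :=
      hN.trans (mul_le_mul_of_nonneg_right hT2 (by linarith))
    have h3 : Y ^ (1 - η) = Y ^ (1 - η - 2 * τ) * Y ^ (2 * τ) := by
      rw [← Real.rpow_add hY0]
      congr 1
      ring
    rw [h3] at h2
    have h4 : 0 < Y ^ (2 * τ) := Real.rpow_pos_of_pos hY0 _
    have h5 : Y ^ (1 - η - 2 * τ) * Y ^ (2 * τ) ≤ (N * 24) * Y ^ (2 * τ) := by linarith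
    exact le_of_mul_le_mul_right h5 h4
  have h2 : (Y ^ (1 - η - 2 * τ) / 24) ^ (1 + ε) ≤ N ^ (1 + ε) :=
    Real.rpow_le_rpow (by positivity) h1 (by linarith)
  have h3 : (24 : ℝ) ^ (1 + ε) ≤ 576 := by
    calc (24 : ℝ) ^ (1 + ε) ≤ 24 ^ (2 : ℝ) :=
          Real.rpow_le_rpow_of_exponent_le (by norm_num) (by linarith)
      _ = 576 := by norm_num
  have h4 : Y ^ ((1 - η - 2 * τ) * (1 + ε)) / 576 ≤ (Y ^ (1 - η - 2 * τ) / 24) ^ (1 + ε) := by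
    rw [Real.div_rpow (by positivity) (by norm_num), ← Real.rpow_mul hY0.le]
    exact div_le_div_of_nonneg_left (by positivity) (by positivity) h3
  have h5 : 5 * Y ^ (1 + 3 * η) ≤ Y ^ ((1 - η - 2 * τ) * (1 + ε)) / 576 := by
    rw [le_div_iff₀ (by norm_num)]
    have h6 : Y ^ (1 + 3 * η) * Y ^ (ε / 2) ≤ Y ^ ((1 - η - 2 * τ) * (1 + ε)) := by
      rw [← Real.rpow_add hY0]
      refine Real.rpow_le_rpow_of_exponent_le hY ?_
      nlinarith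
    have h7 : 0 < Y ^ (1 + 3 * η) := Real.rpow_pos_of_pos hY0 _
    nlinarith
  exact hH.trans (h5.trans (h4.trans h2))

theorem exc_ev {ε κ : ℝ} (hε : 0 < ε) (hε1 : ε ≤ 1) (hκ : 2 ≤ κ) (hκ2 : κ < 8) :
    ∃ δ C : ℝ, 0 < δ ∧ 0 < C ∧ ∀ᶠ Y : ℝ in atTop,
    ((Ex ε κ Y).ncard : ℝ) ≤ C * (Y ^ ((5 : ℝ) / 6) * Y ^ (-δ)) := by
  obtain ⟨δu, Cq, hδu, hCq, hqc⟩ := qc
  set π := min (δu / 20) (1 / 40) with hπ
  have hπ0 : 0 < π := lt_min (by positivity) (by norm_num)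
  have hπ1 : π ≤ δu / 20 := min_le_left _ _
  have hπ2 : π ≤ 1 / 40 := min_le_right _ _
  set τ := min (δu / 20) (ε / 16) with hτ
  have hτ0 : 0 < τ := lt_min (by positivity) (by positivity)
  have hτ1 : τ ≤ δu / 20 := min_le_left _ _
  have hτ2 : τ ≤ ε / 16 := min_le_right _ _
  set η := min (π / 10) (ε / 32) with hη
  have hη0 : 0 < η := lt_min (by positivity) (by positivity)
  have hη1 : η ≤ π / 10 := min_le_left _ _
  have hη2 : η ≤ ε / 32 := min_le_right _ _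
  obtain ⟨δc, Cc, hδc, hCc, hcusp⟩ := cusp_small (1 / 3 + η) (κ / 3) (by linarith) (by linarith)
    (by linarith)
  obtain ⟨Cs, hCs, hsmall⟩ := smallD (1 / 3 + η) η hη0 (by linarith) (by linarith)
    (by rw [div_lt_iff₀ (by linarith)]; linarith)
  obtain ⟨Cb, hCb, hbigp⟩ := bigp hη0 (by linarith) hπ0 hπ2
  set δ := min (min δc (5 / 6 * η)) (τ / 2) with hδ
  have hδ0 : 0 < δ := lt_min (lt_min hδc (by positivity)) (by positivity)
  have hδ1 : δ ≤ δc := (min_le_left _ _).trans (min_le_left _ _)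
  have hδ2 : δ ≤ 5 / 6 * η := (min_le_left _ _).trans (min_le_right _ _)
  have hδ3 : δ ≤ τ / 2 := min_le_right _ _
  refine ⟨δ, Cc + Cs + 300 + Cb + Cq, hδ0, by positivity, ?_⟩
  have ev1 : ∀ᶠ Y : ℝ in atTop, 8 ≤ Y ^ π := (tendsto_rpow_atTop hπ0).eventually_ge_atTop _
  have ev2 : ∀ᶠ Y : ℝ in atTop, 256 ≤ Y ^ (δu / 5) :=
    (tendsto_rpow_atTop (by positivity)).eventually_ge_atTop _
  have ev3 : ∀ᶠ Y : ℝ in atTop, 2880 ≤ Y ^ (ε / 2) :=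
    (tendsto_rpow_atTop (by positivity)).eventually_ge_atTop _
  filter_upwards [ev1, ev2, ev3, eventually_ge_atTop 8] with Y hY1 hY2 hY3 hY8
  have hY : 1 ≤ Y := by linarith
  have hY0 : 0 < Y := by linarith
  have hmono : ∀ {s t : ℝ}, s ≤ t → Y ^ s ≤ Y ^ t := fun h =>
    Real.rpow_le_rpow_of_exponent_le hY h
  have hp56 : 0 < Y ^ ((5 : ℝ) / 6) := Real.rpow_pos_of_pos hY0 _
  have hpδ : 0 < Y ^ ((5 : ℝ) / 6) * Y ^ (-δ) := by positivity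
  set Pn : ℕ := ⌊Y ^ π⌋₊ with hPn
  have hPn1 : (Pn : ℝ) ≤ Y ^ π := Nat.floor_le (by positivity)
  have hPn2 : Y ^ π / 2 ≤ Pn := by
    have := Nat.lt_floor_add_one (Y ^ π)
    rw [← hPn] at this
    linarith
  have hPn4 : 4 ≤ Pn := by
    have : (4 : ℝ) ≤ Pn := by linarith
    exact_mod_cast this
  set T₀ : ℕ := ⌈Y ^ τ⌉₊ with hT₀
  have hτ1' : 1 ≤ Y ^ τ := Real.one_le_rpow hY hτ0.le
  have hT₀1 : Y ^ τ ≤ T₀ := Nat.le_ceil _
  have hT₀2 : (T₀ : ℝ) ≤ 2 * Y ^ τ := by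
    have := Nat.ceil_lt_add_one (show 0 ≤ Y ^ τ by linarith)
    rw [← hT₀] at this
    linarith
  have hT₀3 : 1 ≤ T₀ := by
    have : (1 : ℝ) ≤ T₀ := by linarith
    exact_mod_cast this
  set X : ℝ := 5 * (Y ^ η) ^ 3 * Y with hX
  have hηY : 1 ≤ Y ^ η := Real.one_le_rpow hY hη0.le
  have hX1 : X = 5 * Y ^ (1 + 3 * η) := by
    rw [hX, ← Real.rpow_natCast (Y ^ η), ← Real.rpow_mul hY0.le, Real.rpow_add hY0, Real.rpow_one]
    push_cast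
    ring_nf
  have hXge : 1 ≤ X := by
    rw [hX1]
    have := Real.one_le_rpow hY (show 0 ≤ 1 + 3 * η by linarith)
    linarith
  -- the five sets
  let S1 := Fam (fun x _ => Y ^ (1 / 3 + η) < |(x : ℝ)|) Y (Y ^ (κ / 3))
  let S2 := Fam (fun _ _ => True) (Y ^ (1 - η)) (Y ^ (1 / 3 + η))
  let S3 := Med X Pn (Y ^ (1 / 2 - π))
  let S4 := Big Y (Y ^ (1 / 3 + η)) (Y ^ (1 / 2 - π))
  let S5 := ({z | z ∈ Fam Qs Y (Y ^ (1 : ℝ)) ∧ ∃ q : ℕ, T₀ ≤ q ∧ q ≤ T₀ * Pn ∧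
    (q : ℤ) ^ 2 ∣ D z.1 z.2} : Set (ℤ × ℤ))
  have hsub : Ex ε κ Y ⊆ S1 ∪ (S2 ∪ (S3 ∪ (S4 ∪ S5))) := by
    intro z hz
    obtain ⟨f1, f2, f3, f4⟩ := ex_fam hY le_rfl hz
    obtain ⟨h1, h2, h3, h4⟩ := hz
    by_cases g1 : Y ^ (1 / 3 + η) < |(z.1 : ℝ)|
    · exact Or.inl ⟨f1, f2, f3, g1⟩
    push Not at g1
    by_cases g2 : |(D z.1 z.2 : ℝ)| ≤ Y ^ (1 - η)
    · exact Or.inr (Or.inl ⟨g1, f2, g2, trivial⟩)
    push Not at g2
    right; right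
    have hreg : z ∈ Reg X := by
      refine mem_reg hηY hY0.le ?_ f3
      rw [← Real.rpow_add hY0, add_comm]
      exact g1
    by_cases g3 : ∃ p : ℕ, p.Prime ∧ Pn < p ∧ (p : ℤ) ^ 2 ∣ D z.1 z.2
    · obtain ⟨p, hp, hpP, hpD⟩ := g3
      rcases le_or_gt (p : ℝ) (Y ^ (1 / 2 - π)) with g4 | g4
      · exact Or.inl ⟨hreg, p, hp, hpP, g4, hpD⟩
      · exact Or.inr (Or.inl ⟨⟨g1, f2, f3, trivial⟩, p, hp, g4, hpD⟩)
    push Not at g3
    right; right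
    obtain ⟨Q, hQ0, hQD, hQN⟩ := sq_part f2
    have hQP : ∀ p : ℕ, p.Prime → p ∣ Q → p ≤ Pn := by
      intro p hp hpQ
      by_contra hc
      push Not at hc
      refine g3 p hp hc (dvd_trans ?_ hQD)
      exact pow_dvd_pow_of_dvd (Int.natCast_dvd_natCast.2 hpQ) 2
    by_cases g5 : T₀ ≤ Q
    · obtain ⟨q, hq1, hq2, hq3⟩ := greedy hQ0 g5 hT₀3 (by omega) hQP
      refine ⟨⟨g1.trans (hmono (by linarith)), f2, f3, f4⟩, q, hq2, hq3, dvd_trans ?_ hQD⟩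
      exact pow_dvd_pow_of_dvd (Int.natCast_dvd_natCast.2 hq1) 2
    · exfalso
      push Not at g5
      have k1 : |(D z.1 z.2 : ℝ)| ≤ (T₀ : ℝ) ^ 2 * (6 * N6 z.1 z.2) := by
        rw [absD]
        have k2 : (D z.1 z.2).natAbs ≤ T₀ ^ 2 * (6 * N6 z.1 z.2) :=
          hQN.trans (Nat.mul_le_mul_right _ (Nat.pow_le_pow_left g5.le 2))
        exact_mod_cast k2
      have k2 := num_aux (N := N6 z.1 z.2) (H := Ht z.1 z.2) hY hε hε1 hη0 hη2 hτ0 hτ2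
        (show (0 : ℝ) < T₀ by exact_mod_cast hT₀3) hT₀2 (g2.le.trans k1) (N6_ge_one _ _)
        (by rw [← hX1]; exact Ht_le hreg) hY3
      exact absurd h4 (not_lt.2 k2)
  have hf1 : S1.Finite := fam_finite _ _ _
  have hf2 : S2.Finite := fam_finite _ _ _
  have hf3 : S3.Finite := (Pool.Agent.H828_AC.reg_finite X).subset fun z hz => hz.1
  have hf4 : S4.Finite := (fam_finite _ _ _).subset fun z hz => hz.1
  have hf5 : S5.Finite := (fam_finite _ _ _).subset fun z hz => hz.1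
  have hcard := (Set.ncard_le_ncard hsub (hf1.union (hf2.union (hf3.union (hf4.union hf5))))).trans
    ((Set.ncard_union_le _ _).trans (Nat.add_le_add_left
      ((Set.ncard_union_le _ _).trans (Nat.add_le_add_left
        ((Set.ncard_union_le _ _).trans (Nat.add_le_add_left (Set.ncard_union_le _ _) _)) _)) _))
  have hcardR := (Nat.cast_le (α := ℝ)).2 hcard
  push_cast at hcardR
  -- bounds
  have b1 : (S1.ncard : ℝ) ≤ Cc * (Y ^ ((5 : ℝ) / 6) * Y ^ (-δ)) := by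
    refine (hcusp Y hY).trans ?_
    have : Y ^ (-δc) ≤ Y ^ (-δ) := hmono (by linarith)
    gcongr
  have b2 : (S2.ncard : ℝ) ≤ Cs * (Y ^ ((5 : ℝ) / 6) * Y ^ (-δ)) := by
    refine (hsmall Y hY).trans ?_
    have : Y ^ (-(5 / 6 * η)) ≤ Y ^ (-δ) := hmono (by linarith)
    gcongr
  have b4 : (S4.ncard : ℝ) ≤ Cb * (Y ^ ((5 : ℝ) / 6) * Y ^ (-δ)) := by
    refine (hbigp Y hY8).trans ?_
    have : Y ^ (-η) ≤ Y ^ (-δ) := hmono (by linarith)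
    gcongr
  have b5 : (S5.ncard : ℝ) ≤ Cq * (Y ^ ((5 : ℝ) / 6) * Y ^ (-δ)) := by
    have k1 : ((T₀ * Pn : ℕ) : ℝ) ^ 8 ≤ Y ^ δu := by
      push_cast
      have k2 : (T₀ : ℝ) * Pn ≤ 2 * Y ^ (τ + π) := by
        rw [Real.rpow_add hY0, ← mul_assoc]
        exact mul_le_mul hT₀2 hPn1 (by positivity) (by positivity)
      have k3 := pow_le_pow_left₀ (by positivity) k2 8
      refine k3.trans ?_
      have k4 : (2 * Y ^ (τ + π)) ^ 8 = 256 * Y ^ (8 * (τ + π)) := by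
        rw [mul_pow, ← Real.rpow_natCast (Y ^ (τ + π)), ← Real.rpow_mul hY0.le, mul_comm (τ + π)]
        norm_num
      rw [k4]
      calc 256 * Y ^ (8 * (τ + π)) ≤ Y ^ (δu / 5) * Y ^ (4 * δu / 5) :=
            mul_le_mul hY2 (hmono (by linarith)) (by positivity) (by positivity)
        _ = Y ^ δu := by
            rw [← Real.rpow_add hY0]
            congr 1
            ring
    refine (hqc Y hY T₀ (T₀ * Pn) hT₀3 k1).trans ?_
    have k2 : (T₀ : ℝ) ^ (-(1 / 2) : ℝ) ≤ Y ^ (-δ) := by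
      calc (T₀ : ℝ) ^ (-(1 / 2) : ℝ) ≤ (Y ^ τ) ^ (-(1 / 2) : ℝ) :=
            Real.rpow_le_rpow_of_nonpos (by linarith) hT₀1 (by norm_num)
        _ = Y ^ (τ * (-(1 / 2))) := by rw [← Real.rpow_mul hY0.le]
        _ ≤ Y ^ (-δ) := hmono (by linarith)
    calc Cq * (T₀ : ℝ) ^ (-(1 / 2) : ℝ) * Y ^ ((5 : ℝ) / 6)
        ≤ Cq * Y ^ (-δ) * Y ^ ((5 : ℝ) / 6) := by gcongr
      _ = _ := by ring
  have b3 : (S3.ncard : ℝ) ≤ 300 * (Y ^ ((5 : ℝ) / 6) * Y ^ (-δ)) := by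
    have k1 := med_bound hXge hPn4 (L := Y ^ (1 / 2 - π)) (by positivity)
    refine k1.trans ?_
    have hPn0 : (0 : ℝ) < Pn := by
      have : (4 : ℝ) ≤ Pn := by exact_mod_cast hPn4
      linarith
    have hXp : ∀ s : ℝ, 0 ≤ s → s ≤ 1 → X ^ s ≤ 5 * Y ^ ((1 + 3 * η) * s) := by
      intro s hs0 hs1
      rw [hX1, Real.mul_rpow (by norm_num) (by positivity), ← Real.rpow_mul hY0.le]
      refine mul_le_mul_of_nonneg_right ?_ (by positivity)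
      calc (5 : ℝ) ^ s ≤ 5 ^ (1 : ℝ) := Real.rpow_le_rpow_of_exponent_le (by norm_num) hs1
        _ = 5 := Real.rpow_one _
    have e1 := hXp (1 / 2) (by norm_num) (by norm_num)
    have e2 := hXp (5 / 6) (by norm_num) (by norm_num)
    have e3 := hXp (1 / 3) (by norm_num) (by norm_num)
    have hW : Y ^ ((5 : ℝ) / 6) * Y ^ (-δ) = Y ^ (5 / 6 - δ) := by
      rw [← Real.rpow_add hY0]
      ring_nf
    rw [hW]
    have f1 : X ^ (1 / 2 : ℝ) ≤ 5 * Y ^ (5 / 6 - δ) :=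
      e1.trans (mul_le_mul_of_nonneg_left (hmono (by nlinarith)) (by norm_num))
    have f2 : X ^ (5 / 6 : ℝ) / Pn ≤ 10 * Y ^ (5 / 6 - δ) := by
      rw [div_le_iff₀ hPn0]
      refine e2.trans ?_
      have f3 : Y ^ ((1 + 3 * η) * (5 / 6)) ≤ Y ^ (5 / 6 - δ) * Y ^ π := by
        rw [← Real.rpow_add hY0]
        exact hmono (by nlinarith)
      have f4 : 0 < Y ^ (5 / 6 - δ) := Real.rpow_pos_of_pos hY0 _
      nlinarith
    have f3 : X ^ (1 / 3 : ℝ) * Y ^ (1 / 2 - π) ≤ 5 * Y ^ (5 / 6 - δ) := by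
      calc X ^ (1 / 3 : ℝ) * Y ^ (1 / 2 - π) ≤ 5 * Y ^ ((1 + 3 * η) * (1 / 3)) * Y ^ (1 / 2 - π) := by
            gcongr
        _ = 5 * (Y ^ ((1 + 3 * η) * (1 / 3)) * Y ^ (1 / 2 - π)) := by ring
        _ ≤ 5 * Y ^ (5 / 6 - δ) := by
            rw [← Real.rpow_add hY0]
            exact mul_le_mul_of_nonneg_left (hmono (by nlinarith)) (by norm_num)
    have e4 : 12 * X ^ (5 / 6 : ℝ) / Pn = 12 * (X ^ (5 / 6 : ℝ) / Pn) := by ring
    have e5 : 9 * X ^ (5 / 6 : ℝ) / Pn = 9 * (X ^ (5 / 6 : ℝ) / Pn) := by ring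
    have e6 : 6 * X ^ (1 / 3 : ℝ) * Y ^ (1 / 2 - π) = 6 * (X ^ (1 / 3 : ℝ) * Y ^ (1 / 2 - π)) := by
      ring
    rw [e4, e5, e6]
    linarith
  have e1 : (Cc + Cs + 300 + Cb + Cq) * (Y ^ ((5 : ℝ) / 6) * Y ^ (-δ)) =
      Cc * (Y ^ ((5 : ℝ) / 6) * Y ^ (-δ)) + (Cs * (Y ^ ((5 : ℝ) / 6) * Y ^ (-δ)) +
      (300 * (Y ^ ((5 : ℝ) / 6) * Y ^ (-δ)) + (Cb * (Y ^ ((5 : ℝ) / 6) * Y ^ (-δ)) +
      Cq * (Y ^ ((5 : ℝ) / 6) * Y ^ (-δ))))) := by ring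
  rw [e1]
  linarith

end Pool.Agent.H460.EC
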