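import Pool.Agent.H460.EX.Exc

/-! The exceptional set for all parameters; the number of curves with `H ≤ Y ^ κ`. -/

set_option autoImplicit false

namespace Pool.Agent.H460.EC

open Filter Topology
open Pool.Agent.H828_AC (D Ht Qs N6 Z10)

/-- minimal models with `|D| ≤ Y` and `H ≤ Y ^ κ` -/
def AllC (κ Y : ℝ) : Set (ℤ × ℤ) :=
  {z | Qs z.1 z.2 ∧ |(D z.1 z.2 : ℝ)| ≤ Y ∧ Ht z.1 z.2 ≤ Y ^ κ}

theorem allC_fam {κ Y : ℝ} (hY : 1 ≤ Y) {κ' : ℝ} (hκ : κ ≤ κ') :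
    AllC κ Y ⊆ Fam Qs Y (Y ^ (κ' / 3)) := by
  rintro z ⟨h1, h2, h3⟩
  have hY0 : 0 < Y := by linarith
  refine ⟨?_, h1.1, h2, h1⟩
  have g1 : 4 * |(z.1 : ℝ)| ^ 3 ≤ Y ^ κ' :=
    (le_max_left _ _).trans (h3.trans (Real.rpow_le_rpow_of_exponent_le hY hκ))
  have g2 : (Y ^ (κ' / 3)) ^ 3 = Y ^ κ' := by
    rw [← Real.rpow_natCast, ← Real.rpow_mul hY0.le]
    congr 1
    push_cast
    ring
  have g3 : |(z.1 : ℝ)| ^ 3 ≤ (Y ^ (κ' / 3)) ^ 3 := by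
    rw [g2]
    have : 0 ≤ |(z.1 : ℝ)| ^ 3 := by positivity
    linarith
  exact (pow_le_pow_iff_left₀ (abs_nonneg _) (by positivity) (by norm_num)).1 g3

theorem allC_lim {κ : ℝ} (h1 : 1 < κ) (h2 : κ < 8) :
    Tendsto (fun Y : ℝ => ((AllC κ Y).ncard : ℝ) / Y ^ ((5 : ℝ) / 6)) atTop (𝓝 (c0 * Z10)) := by
  have L1 := HH_lim DD_Qs h1 h2 one_pos
  have L2 := DD_Qs (κ / 3) 1 (by linarith) (by linarith) one_pos
  refine tendsto_of_tendsto_of_tendsto_of_le_of_le' L1 L2 ?_ ?_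
  · filter_upwards [eventually_ge_atTop 1] with Y hY
    have hY0 : 0 < Y := by linarith
    refine div_le_div_of_nonneg_right ?_ (Real.rpow_nonneg hY0.le _)
    refine (Nat.cast_le (α := ℝ)).2 (Set.ncard_le_ncard ?_
      ((fam_finite _ _ _).subset (allC_fam hY le_rfl)))
    rintro z ⟨b1, b2, b3, b4⟩
    refine ⟨b4, b2, b3.trans ?_⟩
    rw [one_mul]
    exact Real.rpow_le_rpow (abs_nonneg _) b2 (by linarith)
  · filter_upwards [eventually_ge_atTop 1] with Y hY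
    have hY0 : 0 < Y := by linarith
    refine div_le_div_of_nonneg_right ?_ (Real.rpow_nonneg hY0.le _)
    rw [one_mul]
    exact (Nat.cast_le (α := ℝ)).2 (Set.ncard_le_ncard (allC_fam hY le_rfl) (fam_finite _ _ _))

theorem exc_all {ε κ : ℝ} (hε : 0 < ε) (hκ : κ < 8) : ∃ δ C : ℝ, 0 < δ ∧ 0 < C ∧
    ∀ Y : ℝ, 1 ≤ Y → ((Ex ε κ Y).ncard : ℝ) ≤ C * Y ^ (5 / 6 - δ) := by
  set ε' := min ε 1 with hε'
  have hε'0 : 0 < ε' := lt_min hε one_pos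
  set κ' := max κ 2 with hκ'
  have hκ'8 : κ' < 8 := max_lt hκ (by norm_num)
  have hκ'2 : 2 ≤ κ' := le_max_right _ _
  obtain ⟨δ, C, hδ, hC, h⟩ := exc_ev hε'0 (min_le_right _ _) hκ'2 hκ'8
  obtain ⟨Y₀, hY₀⟩ := eventually_atTop.1 h
  obtain ⟨δ', C', hδ', hC', h'⟩ := all_abs (κ' / 3) (by linarith) (by linarith)
  set Y₁ := max Y₀ 1 with hY₁
  have hY₁1 : 1 ≤ Y₁ := le_max_right _ _
  have hc0 := c0_pos
  refine ⟨δ, C + (c0 + C') * Y₁ ^ δ, hδ, by positivity, fun Y hY => ?_⟩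
  have hYp : 0 < Y := by linarith
  have hsub : Ex ε κ Y ⊆ Ex ε' κ' Y := by
    rintro z ⟨b1, b2, b3, b4⟩
    refine ⟨b1, b2, b3.trans (Real.rpow_le_rpow_of_exponent_le hY (le_max_left _ _)),
      lt_of_le_of_lt ?_ b4⟩
    exact Real.rpow_le_rpow_of_exponent_le (N6_ge_one _ _) (by
      have := min_le_left ε 1
      linarith)
  have hfin : (Ex ε' κ' Y).Finite :=
    (fam_finite Qs Y (Y ^ (κ' / 3))).subset fun z hz => ex_fam hY le_rfl hz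
  have g1 : ((Ex ε κ Y).ncard : ℝ) ≤ (Ex ε' κ' Y).ncard := by
    exact_mod_cast Set.ncard_le_ncard hsub hfin
  refine g1.trans ?_
  have e1 : Y ^ (5 / 6 - δ) = Y ^ ((5 : ℝ) / 6) * Y ^ (-δ) := by
    rw [← Real.rpow_add hYp]
    ring_nf
  rw [e1]
  have hp : 0 < Y ^ ((5 : ℝ) / 6) * Y ^ (-δ) := by positivity
  rcases le_or_gt Y₀ Y with hc | hc
  · refine (hY₀ Y hc).trans (mul_le_mul_of_nonneg_right ?_ hp.le)
    have : 0 ≤ (c0 + C') * Y₁ ^ δ := by positivity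
    linarith
  · have g2 : ((Ex ε' κ' Y).ncard : ℝ) ≤ (Fam (fun _ _ => True) Y (Y ^ (κ' / 3))).ncard := by
      refine (Nat.cast_le (α := ℝ)).2 (Set.ncard_le_ncard ?_ (fam_finite _ _ _))
      intro z hz
      obtain ⟨b1, b2, b3, _⟩ := ex_fam hY le_rfl hz
      exact ⟨b1, b2, b3, trivial⟩
    have g3 := (abs_le.1 (h' Y hY)).2
    have g4 : Y ^ (-δ') ≤ 1 := Real.rpow_le_one_of_one_le_of_nonpos hY (by linarith)
    have hp56 : 0 < Y ^ ((5 : ℝ) / 6) := Real.rpow_pos_of_pos hYp _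
    have g5 : C' * (Y ^ ((5 : ℝ) / 6) * Y ^ (-δ')) ≤ C' * (Y ^ ((5 : ℝ) / 6) * 1) := by gcongr
    have g6 : ((Ex ε' κ' Y).ncard : ℝ) ≤ (c0 + C') * Y ^ ((5 : ℝ) / 6) := by nlinarith
    refine g6.trans ?_
    have g7 : 1 ≤ Y₁ ^ δ * Y ^ (-δ) := by
      rw [Real.rpow_neg hYp.le, ← div_eq_mul_inv, one_le_div (by positivity)]
      exact Real.rpow_le_rpow hYp.le (hc.le.trans (le_max_left _ _)) hδ.le
    calc (c0 + C') * Y ^ ((5 : ℝ) / 6) ≤ (c0 + C') * Y ^ ((5 : ℝ) / 6) * (Y₁ ^ δ * Y ^ (-δ)) :=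
          le_mul_of_one_le_right (by positivity) g7
      _ = (c0 + C') * Y₁ ^ δ * (Y ^ ((5 : ℝ) / 6) * Y ^ (-δ)) := by ring
      _ ≤ _ := mul_le_mul_of_nonneg_right (by linarith) hp.le

end Pool.Agent.H460.EC
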