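import Pool.Agent.H460.EC.AreaD

/-! The density of `p ^ (2k) ∣ D` among the models which are minimal at `p`. -/

set_option autoImplicit false

namespace Pool.Agent.H460.EC

open Filter Topology
open Pool.Agent.H828_AC (D Per HasDens AA EE WW WW_iff WW_cong mu mu_hasSum mu_bounds dens_WW
  dens_min AA_per per_inv lamq lamq_dens lamq_le PQ vD eN pow_dvd_iff dens_EE dens_AA dens_mono b_iff)

theorem DD.mono {P Q : ℤ → ℤ → Prop} {d d' : ℝ} (h : DD P d) (h' : DD Q d')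
    (hPQ : ∀ x y, D x y ≠ 0 → P x y → Q x y) : d ≤ d' := by
  have h1 : c0 * d ≤ c0 * d' := by
    refine le_of_tendsto_of_tendsto (h 1 1 (by norm_num) (by norm_num) one_pos)
      (h' 1 1 (by norm_num) (by norm_num) one_pos) ?_
    filter_upwards [eventually_gt_atTop 0] with X hX
    exact div_le_div_of_nonneg_right (fam_ncard_mono le_rfl le_rfl hPQ) (by positivity)
  exact le_of_mul_le_mul_left h1 c0_pos

theorem DD_WW {p : ℕ} (hp : p.Prime) (h5 : 5 ≤ p) (w : ℕ) : DD (WW p w) (mu p w) := by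
  have : NeZero (p ^ (w + 6)) := ⟨pow_ne_zero _ hp.ne_zero⟩
  obtain ⟨S, hS⟩ : ∃ S : Finset (ZMod (p ^ (w + 6)) × ZMod (p ^ (w + 6))),
      Per (p ^ (w + 6)) (WW p w) S := by
    refine per_inv fun x x' y y' hx hy => ?_
    push_cast at hx hy
    rw [WW_cong le_rfl hx hy]
    exact id
  exact per_DD' hS (dens_WW hp h5 w)

theorem DD_AA {p : ℕ} (hp : p.Prime) : DD (fun x y => ¬ AA p 4 6 x y) (1 - 1 / (p : ℝ) ^ 10) := by
  have : NeZero (p ^ 6) := ⟨pow_ne_zero _ hp.ne_zero⟩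
  obtain ⟨S, hS⟩ := AA_per hp
  exact per_DD' hS (dens_min hp)

theorem DD_PQ {q : ℕ} (hq : q.Prime) (i : ℕ) : DD (PQ q i) (lamq q i) := by
  have : NeZero (q ^ (i + 6)) := ⟨pow_ne_zero _ hq.ne_zero⟩
  obtain ⟨S, hS⟩ := Pool.Agent.H828_AC.PQ_per hq i
  exact per_DD' hS (lamq_dens hq i)

def GE (p n : ℕ) (x y : ℤ) : Prop := ¬ AA p 4 6 x y ∧ ∀ w < n, ¬ WW p w x y

theorem DD_GE {p : ℕ} (hp : p.Prime) (h5 : 5 ≤ p) (n : ℕ) :
    DD (GE p n) (1 - 1 / (p : ℝ) ^ 10 - ∑ w ∈ Finset.range n, mu p w) := by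
  induction n with
  | zero =>
    rw [Finset.sum_range_zero, sub_zero]
    refine (DD_AA hp).congr fun x y _ => ?_
    unfold GE
    simp
  | succ n ih =>
    have h1 := ih.diff (DD_WW hp h5 n) fun x y h0 h => by
      have h2 := (WW_iff hp h5 h0 n).1 h
      refine ⟨h2.1, fun w hw h3 => ?_⟩
      have h4 := (WW_iff hp h5 h0 w).1 h3
      have := h2.2.symm.trans h4.2
      omega
    rw [sub_sub, ← Finset.sum_range_succ] at h1
    refine h1.congr fun x y _ => ?_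
    unfold GE
    constructor
    · rintro ⟨⟨h2, h3⟩, h4⟩
      refine ⟨h2, fun w hw => ?_⟩
      rcases Nat.lt_succ_iff_lt_or_eq.1 hw with h | rfl
      · exact h3 w h
      · exact h4
    · rintro ⟨h2, h3⟩
      exact ⟨⟨h2, fun w hw => h3 w (by omega)⟩, h3 n (by omega)⟩

theorem GE_dens_le {p : ℕ} (hp : 5 ≤ p) {n : ℕ} (hn : 1 ≤ n) :
    1 - 1 / (p : ℝ) ^ 10 - ∑ w ∈ Finset.range n, mu p w ≤ 5 / (p : ℝ) ^ (n + 1) := by
  have hp5 : (5 : ℝ) ≤ p := by exact_mod_cast hp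
  have hp0 : (0 : ℝ) < p := by linarith
  have h1 := (hasSum_nat_add_iff' (f := mu p) n).2 (mu_hasSum (p := p) (by omega))
  have h2 := (hasSum_geometric_of_lt_one (r := (p : ℝ)⁻¹) (by positivity)
    (inv_lt_one_of_one_lt₀ (by linarith))).mul_left (4 / (p : ℝ) ^ (n + 1))
  have h3 := hasSum_le (fun w => ?_) h1 h2
  · refine h3.trans ?_
    have h4 : (1 - (p : ℝ)⁻¹)⁻¹ ≤ 5 / 4 := by
      rw [inv_le_comm₀ (by
        have : (p : ℝ)⁻¹ ≤ 5⁻¹ := inv_anti₀ (by norm_num) hp5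
        norm_num at this ⊢
        linarith) (by norm_num)]
      have : (p : ℝ)⁻¹ ≤ 5⁻¹ := inv_anti₀ (by norm_num) hp5
      norm_num at this ⊢
      linarith
    calc 4 / (p : ℝ) ^ (n + 1) * (1 - (p : ℝ)⁻¹)⁻¹ ≤ 4 / (p : ℝ) ^ (n + 1) * (5 / 4) := by gcongr
      _ = 5 / (p : ℝ) ^ (n + 1) := by ring
  · have h5 := (mu_bounds (p := p) (by omega) (w + n)).2 (by omega)
    refine h5.trans (le_of_eq ?_)
    rw [inv_pow]
    field_simp
    rw [← pow_add]
    congr 1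
    omega

theorem lam_two {p : ℕ} (hp : p.Prime) (h5 : 5 ≤ p) : lamq p 2 ≤ 2 / (p : ℝ) ^ 2 := by
  have hp5 : (5 : ℝ) ≤ p := by exact_mod_cast h5
  have hp0 : (0 : ℝ) < p := by linarith
  have h1 := (dens_EE hp h5 (k := 2) (by norm_num)).add (dens_AA hp 1 1) fun x y h1 h2 => by
    have := h2.1
    rw [pow_one] at this
    exact h1.1 this
  have h2 := dens_mono (lamq_dens hp 2) h1 fun x y h => by
    by_cases ha : (p : ℤ) ∣ x
    · right
      refine ⟨by rwa [pow_one], ?_⟩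
      rw [pow_one]
      exact (b_iff hp h5 ha).1 ((dvd_pow_self _ (by norm_num)).trans h.1)
    · exact Or.inl ⟨ha, h.1⟩
  refine h2.trans ?_
  have e1 : ((p : ℝ) - 1) / (p : ℝ) ^ (2 + 1) ≤ 1 / (p : ℝ) ^ 2 := by
    rw [div_le_div_iff₀ (by positivity) (by positivity)]
    have h7 := pow_pos hp0 2
    have h8 : (p : ℝ) ^ (2 + 1) = p * (p : ℝ) ^ 2 := by ring
    rw [h8]
    linarith
  have e2 : (2 : ℝ) / (p : ℝ) ^ 2 = 1 / (p : ℝ) ^ 2 + 1 / (p : ℝ) ^ (1 + 1) := by ring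
  rw [e2]
  linarith

theorem lam_five {p : ℕ} (hp : p.Prime) (h5 : 5 ≤ p) {k : ℕ} (hk : 1 ≤ k) :
    lamq p (2 * k) ≤ 5 / (p : ℝ) ^ (k + 1) := by
  have hp5 : (5 : ℝ) ≤ p := by exact_mod_cast h5
  have hp0 : (0 : ℝ) < p := by linarith
  rcases Nat.lt_or_ge 1 k with h | h
  · have h1 := (DD_PQ hp (2 * k)).mono (DD_GE hp h5 (2 * k - 2)) fun x y h0 h1 => by
      refine ⟨h1.2, fun w hw h2 => ?_⟩
      have h3 := ((WW_iff hp h5 h0 w).1 h2).2
      have h4 := (pow_dvd_iff hp h0 _).1 h1.1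
      have h6 : eN p x y ≤ 2 := by
        unfold eN
        split_ifs <;> omega
      omega
    refine h1.trans ((GE_dens_le h5 (by omega)).trans ?_)
    exact div_le_div_of_nonneg_left (by norm_num) (by positivity)
      (pow_le_pow_right₀ (by linarith) (by omega))
  · have hk1 : k = 1 := by omega
    subst hk1
    refine (lam_two hp h5).trans ?_
    exact div_le_div_of_nonneg_right (by norm_num) (by positivity)

theorem lam_all : ∃ B : ℝ, 1 ≤ B ∧ ∀ p : ℕ, p.Prime → ∀ k : ℕ, 1 ≤ k →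
    lamq p (2 * k) ≤ B / (p : ℝ) ^ (k + 1) := by
  obtain ⟨C2, hC2, h2⟩ := lamq_le (q := 2) (Or.inl rfl)
  obtain ⟨C3, hC3, h3⟩ := lamq_le (q := 3) (Or.inr rfl)
  refine ⟨5 + C2 + C3, by linarith, fun p hp k hk => ?_⟩
  have hp0 : (0 : ℝ) < p := by exact_mod_cast hp.pos
  have hp1 : (1 : ℝ) ≤ p := by exact_mod_cast hp.one_lt.le
  have hpk : 0 < (p : ℝ) ^ (k + 1) := by positivity
  by_cases h5 : 5 ≤ p
  · exact (lam_five hp h5 hk).trans (div_le_div_of_nonneg_right (by linarith) hpk.le)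
  · have h23 : p = 2 ∨ p = 3 := by
      have h2 := hp.two_le
      have h4 : p ≠ 4 := by
        rintro rfl
        exact absurd hp (by norm_num)
      omega
    have h7 : (p : ℝ) ^ (k + 1) ≤ (p : ℝ) ^ (2 * k) := pow_le_pow_right₀ hp1 (by omega)
    rcases h23 with rfl | rfl
    · refine (h2 (2 * k)).trans ?_
      calc C2 / ((2 : ℕ) : ℝ) ^ (2 * k) ≤ C2 / ((2 : ℕ) : ℝ) ^ (k + 1) :=
            div_le_div_of_nonneg_left hC2.le hpk h7
        _ ≤ _ := div_le_div_of_nonneg_right (by linarith) hpk.le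
    · refine (h3 (2 * k)).trans ?_
      calc C3 / ((3 : ℕ) : ℝ) ^ (2 * k) ≤ C3 / ((3 : ℕ) : ℝ) ^ (k + 1) :=
            div_le_div_of_nonneg_left hC3.le hpk h7
        _ ≤ _ := div_le_div_of_nonneg_right (by linarith) hpk.le

end Pool.Agent.H460.EC
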