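import Pool.Agent.H460.EX.Lam

/-! Summability of the densities of `q² ∣ D`. -/

set_option autoImplicit false

namespace Pool.Agent.H460.EC

open Filter Topology
open Pool.Agent.H828_AC (lamq lamq_dens dens_nonneg)

/-- the density of `q² ∣ D` -/
noncomputable def gg (q : ℕ) : ℝ := ∏ p ∈ q.primeFactors, lamq p (2 * q.factorization p)

theorem gg_nonneg (q : ℕ) : 0 ≤ gg q :=
  Finset.prod_nonneg fun p hp => dens_nonneg (lamq_dens (Nat.prime_of_mem_primeFactors hp) _)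

theorem gg_one : gg 1 = 1 := by simp [gg]

theorem gg_mul {m n : ℕ} (hm : m ≠ 0) (hn : n ≠ 0) (h : m.Coprime n) :
    gg (m * n) = gg m * gg n := by
  unfold gg
  rw [h.primeFactors_mul, Finset.prod_union h.disjoint_primeFactors]
  congr 1
  · refine Finset.prod_congr rfl fun p hp => ?_
    have h1 : n.factorization p = 0 := by
      refine Nat.factorization_eq_zero_of_not_dvd fun h2 => ?_
      have h3 := Nat.dvd_gcd (Nat.dvd_of_mem_primeFactors hp) h2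
      rw [h] at h3
      exact (Nat.prime_of_mem_primeFactors hp).one_lt.ne' (Nat.dvd_one.1 h3)
    rw [Nat.factorization_mul hm hn, Finsupp.add_apply, h1, add_zero]
  · refine Finset.prod_congr rfl fun p hp => ?_
    have h1 : m.factorization p = 0 := by
      refine Nat.factorization_eq_zero_of_not_dvd fun h2 => ?_
      have h3 := Nat.dvd_gcd h2 (Nat.dvd_of_mem_primeFactors hp)
      rw [h] at h3
      exact (Nat.prime_of_mem_primeFactors hp).one_lt.ne' (Nat.dvd_one.1 h3)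
    rw [Nat.factorization_mul hm hn, Finsupp.add_apply, h1, zero_add]

theorem gg_pow {p : ℕ} (hp : p.Prime) (j : ℕ) : gg (p ^ (j + 1)) = lamq p (2 * (j + 1)) := by
  unfold gg
  rw [Nat.primeFactors_prime_pow (by omega) hp, Finset.prod_singleton, hp.factorization_pow,
    Finsupp.single_eq_same]

noncomputable def hs (q : ℕ) : ℝ := if q = 0 then 0 else gg q * (q : ℝ) ^ ((1 : ℝ) / 2)

theorem hs_nonneg (q : ℕ) : 0 ≤ hs q := by
  unfold hs
  split_ifs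
  · exact le_rfl
  · exact mul_nonneg (gg_nonneg q) (by positivity)

theorem hs_one : hs 1 = 1 := by simp [hs, gg_one]

theorem hs_mul {m n : ℕ} (h : m.Coprime n) : hs (m * n) = hs m * hs n := by
  unfold hs
  by_cases hm : m = 0
  · simp [hm]
  by_cases hn : n = 0
  · simp [hn]
  rw [if_neg hm, if_neg hn, if_neg (mul_ne_zero hm hn), gg_mul hm hn h, Nat.cast_mul,
    Real.mul_rpow (Nat.cast_nonneg _) (Nat.cast_nonneg _)]
  ring

theorem hs_pow_le {B : ℝ} (hB : ∀ p : ℕ, p.Prime → ∀ k : ℕ, 1 ≤ k →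
    lamq p (2 * k) ≤ B / (p : ℝ) ^ (k + 1)) {p : ℕ} (hp : p.Prime) (j : ℕ) :
    hs (p ^ (j + 1)) ≤ B * (p : ℝ) ^ (-(3 / 2) : ℝ) * ((p : ℝ) ^ (-(1 / 2) : ℝ)) ^ j := by
  have hp0 : (0 : ℝ) < p := by exact_mod_cast hp.pos
  unfold hs
  rw [if_neg (pow_ne_zero _ hp.ne_zero), gg_pow hp]
  have h1 := hB p hp (j + 1) (by omega)
  have h2 : 0 ≤ ((p ^ (j + 1) : ℕ) : ℝ) ^ ((1 : ℝ) / 2) := by positivity
  refine (mul_le_mul_of_nonneg_right h1 h2).trans (le_of_eq ?_)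
  push_cast
  rw [← Real.rpow_natCast (p : ℝ) (j + 1 + 1), ← Real.rpow_natCast (p : ℝ) (j + 1),
    ← Real.rpow_mul hp0.le, ← Real.rpow_natCast ((p : ℝ) ^ (-(1 / 2) : ℝ)) j,
    ← Real.rpow_mul hp0.le, div_mul_eq_mul_div, div_eq_iff (Real.rpow_pos_of_pos hp0 _).ne',
    mul_assoc B, mul_assoc B, ← Real.rpow_add hp0, ← Real.rpow_add hp0]
  congr 2
  push_cast
  ring

theorem local_hs {B : ℝ} (hB1 : 1 ≤ B) (hB : ∀ p : ℕ, p.Prime → ∀ k : ℕ, 1 ≤ k →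
    lamq p (2 * k) ≤ B / (p : ℝ) ^ (k + 1)) {p : ℕ} (hp : p.Prime) :
    Summable (fun j => hs (p ^ j)) ∧ ∑' j, hs (p ^ j) ≤
      Real.exp (B * (1 - (2 : ℝ) ^ (-(1 / 2) : ℝ))⁻¹ * (p : ℝ) ^ (-(3 / 2) : ℝ)) := by
  have hp2 : (2 : ℝ) ≤ p := by exact_mod_cast hp.two_le
  have hp1 : (1 : ℝ) < p := by linarith
  have hp0 : (0 : ℝ) < p := by linarith
  have hr0 : 0 ≤ (p : ℝ) ^ (-(1 / 2) : ℝ) := Real.rpow_nonneg hp0.le _
  have hr1 : (p : ℝ) ^ (-(1 / 2) : ℝ) < 1 := Real.rpow_lt_one_of_one_lt_of_neg hp1 (by norm_num)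
  have h21 : (2 : ℝ) ^ (-(1 / 2) : ℝ) < 1 :=
    Real.rpow_lt_one_of_one_lt_of_neg (by norm_num) (by norm_num)
  have hr2 : (p : ℝ) ^ (-(1 / 2) : ℝ) ≤ (2 : ℝ) ^ (-(1 / 2) : ℝ) :=
    Real.rpow_le_rpow_of_nonpos (by norm_num) hp2 (by norm_num)
  have h1 := (hasSum_geometric_of_lt_one hr0 hr1).mul_left (B * (p : ℝ) ^ (-(3 / 2) : ℝ))
  have h2 : Summable fun j => hs (p ^ (j + 1)) :=
    Summable.of_nonneg_of_le (fun j => hs_nonneg _) (fun j => hs_pow_le hB hp j) h1.summable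
  have h3 : Summable fun j => hs (p ^ j) := (summable_nat_add_iff (f := fun j => hs (p ^ j)) 1).1 h2
  refine ⟨h3, ?_⟩
  rw [h3.tsum_eq_zero_add, pow_zero, hs_one]
  have h4 := h2.tsum_le_tsum (fun j => hs_pow_le hB hp j) h1.summable
  rw [h1.tsum_eq] at h4
  have h5 : (1 - (p : ℝ) ^ (-(1 / 2) : ℝ))⁻¹ ≤ (1 - (2 : ℝ) ^ (-(1 / 2) : ℝ))⁻¹ :=
    inv_anti₀ (by linarith) (by linarith)
  have h6 : B * (p : ℝ) ^ (-(3 / 2) : ℝ) * (1 - (p : ℝ) ^ (-(1 / 2) : ℝ))⁻¹ ≤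
      B * (1 - (2 : ℝ) ^ (-(1 / 2) : ℝ))⁻¹ * (p : ℝ) ^ (-(3 / 2) : ℝ) := by
    calc _ ≤ B * (p : ℝ) ^ (-(3 / 2) : ℝ) * (1 - (2 : ℝ) ^ (-(1 / 2) : ℝ))⁻¹ :=
          mul_le_mul_of_nonneg_left h5 (by positivity)
      _ = _ := by ring
  have h7 := Real.add_one_le_exp (B * (1 - (2 : ℝ) ^ (-(1 / 2) : ℝ))⁻¹ * (p : ℝ) ^ (-(3 / 2) : ℝ))
  linarith

theorem hs_summable : Summable hs := by
  obtain ⟨B, hB1, hB⟩ := Pool.Agent.H460.EC.lam_all
  have hz : Summable fun n : ℕ => (n : ℝ) ^ (-(3 / 2) : ℝ) :=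
    Real.summable_nat_rpow.2 (by norm_num)
  have h21 : (2 : ℝ) ^ (-(1 / 2) : ℝ) < 1 :=
    Real.rpow_lt_one_of_one_lt_of_neg (by norm_num) (by norm_num)
  have hc : 0 ≤ B * (1 - (2 : ℝ) ^ (-(1 / 2) : ℝ))⁻¹ := by
    have : 0 ≤ (1 - (2 : ℝ) ^ (-(1 / 2) : ℝ))⁻¹ := inv_nonneg.2 (by linarith)
    positivity
  refine summable_of_sum_range_le (c := Real.exp (B * (1 - (2 : ℝ) ^ (-(1 / 2) : ℝ))⁻¹ *
    ∑' n : ℕ, (n : ℝ) ^ (-(3 / 2) : ℝ))) hs_nonneg fun N => ?_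
  have h1 := (EulerProduct.summable_and_hasSum_smoothNumbers_prod_primesBelow_tsum (f := hs)
    hs_one (fun h => hs_mul h) (fun hp => (local_hs hB1 hB hp).1.norm) N).2
  have h2 : HasSum ((N.smoothNumbers).indicator hs)
      (∏ p ∈ N.primesBelow, ∑' n : ℕ, hs (p ^ n)) := by
    rw [← hasSum_subtype_iff_indicator]
    exact h1
  have h3 : ∑ m ∈ Finset.range N, hs m ≤ ∑ m ∈ Finset.range N,
      (N.smoothNumbers).indicator hs m := by
    refine Finset.sum_le_sum fun m hm => ?_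
    rcases Nat.eq_zero_or_pos m with rfl | hm0
    · have : hs 0 = 0 := by simp [hs]
      rw [this]
      exact Set.indicator_nonneg (fun n _ => hs_nonneg n) 0
    · rw [Set.indicator_of_mem (Nat.mem_smoothNumbers_of_lt hm0 (Finset.mem_range.1 hm))]
  refine h3.trans ((sum_le_hasSum (Finset.range N) (fun m _ => Set.indicator_nonneg
    (fun n _ => hs_nonneg n) m) h2).trans ?_)
  calc ∏ p ∈ N.primesBelow, ∑' n : ℕ, hs (p ^ n)
      ≤ ∏ p ∈ N.primesBelow,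
        Real.exp (B * (1 - (2 : ℝ) ^ (-(1 / 2) : ℝ))⁻¹ * (p : ℝ) ^ (-(3 / 2) : ℝ)) := by
        refine Finset.prod_le_prod (fun p _ => tsum_nonneg fun n => hs_nonneg _) fun p hp => ?_
        exact (local_hs hB1 hB (Nat.prime_of_mem_primesBelow hp)).2
    _ = Real.exp (B * (1 - (2 : ℝ) ^ (-(1 / 2) : ℝ))⁻¹ *
          ∑ p ∈ N.primesBelow, (p : ℝ) ^ (-(3 / 2) : ℝ)) := by
        rw [← Real.exp_sum, Finset.mul_sum]
    _ ≤ _ := by
        refine Real.exp_le_exp.2 (mul_le_mul_of_nonneg_left ?_ hc)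
        exact hz.sum_le_tsum _ fun n _ => Real.rpow_nonneg (Nat.cast_nonneg _) _

/-- the tail -/
theorem gg_tail : ∃ C : ℝ, 0 < C ∧ ∀ (T : ℝ) (S : Finset ℕ), 1 ≤ T → (∀ q ∈ S, T ≤ (q : ℝ)) →
    ∑ q ∈ S, gg q ≤ C * T ^ (-(1 / 2) : ℝ) := by
  have hpos : 0 < ∑' n, hs n := hs_summable.tsum_pos hs_nonneg 1 (by rw [hs_one]; exact one_pos)
  refine ⟨_, hpos, fun T S hT hS => ?_⟩
  have hT0 : 0 < T := by linarith
  have h1 : ∀ q ∈ S, gg q ≤ hs q * T ^ (-(1 / 2) : ℝ) := by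
    intro q hq
    have hq1 := hS q hq
    have hq0 : (0 : ℝ) < q := by linarith
    have hqn : q ≠ 0 := by
      rintro rfl
      norm_num at hq0
    unfold hs
    rw [if_neg hqn, mul_assoc]
    have h2 : 1 ≤ (q : ℝ) ^ ((1 : ℝ) / 2) * T ^ (-(1 / 2) : ℝ) := by
      rw [Real.rpow_neg hT0.le, ← div_eq_mul_inv, one_le_div (by positivity)]
      exact Real.rpow_le_rpow hT0.le hq1 (by norm_num)
    have := gg_nonneg q
    nlinarith
  calc ∑ q ∈ S, gg q ≤ ∑ q ∈ S, hs q * T ^ (-(1 / 2) : ℝ) := Finset.sum_le_sum h1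
    _ = (∑ q ∈ S, hs q) * T ^ (-(1 / 2) : ℝ) := by rw [Finset.sum_mul]
    _ ≤ _ := by
        refine mul_le_mul_of_nonneg_right ?_ (by positivity)
        exact hs_summable.sum_le_tsum _ fun n _ => hs_nonneg n

end Pool.Agent.H460.EC
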